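import Mathlib

namespace Pool.Agent.Folk588

instance fact97 : Fact (Nat.Prime 97) := ⟨by norm_num⟩

/-- Elements of the group `SL(2, 97)`, as quadruples. -/
@[ext]
structure G2 where
  a : ZMod 97
  b : ZMod 97
  c : ZMod 97
  d : ZMod 97
  h : a * d - b * c = 1
deriving DecidableEq

namespace G2

instance : One G2 := ⟨⟨1, 0, 0, 1, by ring⟩⟩

instance : Mul G2 := ⟨fun x y => ⟨x.a * y.a + x.b * y.c, x.a * y.b + x.b * y.d,
  x.c * y.a + x.d * y.c, x.c * y.b + x.d * y.d, by
    linear_combination y.h + (y.a * y.d - y.b * y.c) * x.h⟩⟩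

instance : Inv G2 := ⟨fun x => ⟨x.d, -x.b, -x.c, x.a, by linear_combination x.h⟩⟩

@[simp] theorem one_a : (1 : G2).a = 1 := rfl
@[simp] theorem one_b : (1 : G2).b = 0 := rfl
@[simp] theorem one_c : (1 : G2).c = 0 := rfl
@[simp] theorem one_d : (1 : G2).d = 1 := rfl
@[simp] theorem mul_a (x y : G2) : (x * y).a = x.a * y.a + x.b * y.c := rfl
@[simp] theorem mul_b (x y : G2) : (x * y).b = x.a * y.b + x.b * y.d := rfl
@[simp] theorem mul_c (x y : G2) : (x * y).c = x.c * y.a + x.d * y.c := rfl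
@[simp] theorem mul_d (x y : G2) : (x * y).d = x.c * y.b + x.d * y.d := rfl
@[simp] theorem inv_a (x : G2) : (x⁻¹).a = x.d := rfl
@[simp] theorem inv_b (x : G2) : (x⁻¹).b = -x.b := rfl
@[simp] theorem inv_c (x : G2) : (x⁻¹).c = -x.c := rfl
@[simp] theorem inv_d (x : G2) : (x⁻¹).d = x.a := rfl

instance : Group G2 := Group.ofLeftAxioms
  (by intro x y z; ext <;> simp <;> ring)
  (by intro x; ext <;> simp)
  (by
    intro x
    ext
    · simp; linear_combination x.h
    · simp; ring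
    · simp; ring
    · simp; linear_combination x.h)

/-- The map to the four entries is injective. -/
theorem toQuad_injective :
    Function.Injective (fun x : G2 => ((x.a, x.b), (x.c, x.d))) := by
  intro x y h
  simp only [Prod.mk.injEq] at h
  exact G2.ext h.1.1 h.1.2 h.2.1 h.2.2

noncomputable instance : Fintype G2 := Fintype.ofInjective _ toQuad_injective

/-- Upper unipotent element. -/
def un (s : ZMod 97) : G2 := ⟨1, s, 0, 1, by ring⟩
/-- Lower unipotent element. -/
def lo (s : ZMod 97) : G2 := ⟨1, 0, s, 1, by ring⟩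
/-- The generator of the diagonal part of the edge stabiliser. -/
def T : G2 := ⟨8, 0, 0, 85, by decide⟩
/-- The Weyl element. -/
def w : G2 := ⟨0, 1, -1, 0, by ring⟩

@[simp] theorem un_a (s : ZMod 97) : (un s).a = 1 := rfl
@[simp] theorem un_b (s : ZMod 97) : (un s).b = s := rfl
@[simp] theorem un_c (s : ZMod 97) : (un s).c = 0 := rfl
@[simp] theorem un_d (s : ZMod 97) : (un s).d = 1 := rfl
@[simp] theorem lo_a (s : ZMod 97) : (lo s).a = 1 := rfl
@[simp] theorem lo_b (s : ZMod 97) : (lo s).b = 0 := rfl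
@[simp] theorem lo_c (s : ZMod 97) : (lo s).c = s := rfl
@[simp] theorem lo_d (s : ZMod 97) : (lo s).d = 1 := rfl
@[simp] theorem T_a : T.a = 8 := rfl
@[simp] theorem T_b : T.b = 0 := rfl
@[simp] theorem T_c : T.c = 0 := rfl
@[simp] theorem T_d : T.d = 85 := rfl
@[simp] theorem w_a : w.a = 0 := rfl
@[simp] theorem w_b : w.b = 1 := rfl
@[simp] theorem w_c : w.c = -1 := rfl
@[simp] theorem w_d : w.d = 0 := rfl

theorem card_le : Fintype.card G2 ≤ 912673 := by
  have hinj : Function.Injective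
      (fun x : G2 => ((x.c, x.d), (if x.c = 0 then x.b else x.a))) := by
    intro x y h
    simp only [Prod.mk.injEq] at h
    obtain ⟨⟨hc, hd⟩, h2⟩ := h
    by_cases h0 : x.c = 0
    · have h0' : y.c = 0 := hc ▸ h0
      simp only [h0, h0', if_true] at h2
      have hx := x.h
      have hy := y.h
      rw [h0] at hx
      rw [h0', ← hd] at hy
      have hx1 : x.a * x.d = 1 := by linear_combination hx
      have hy1 : y.a * x.d = 1 := by linear_combination hy
      have hne : x.d ≠ 0 := by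
        intro h; rw [h] at hx1; simp at hx1
      have : x.a = y.a := mul_right_cancel₀ hne (hx1.trans hy1.symm)
      exact G2.ext this h2 hc hd
    · have h0' : y.c ≠ 0 := hc ▸ h0
      simp only [h0, h0', if_false] at h2
      have hx := x.h
      have hy := y.h
      rw [← hd, ← hc, ← h2] at hy
      have : x.b * x.c = y.b * x.c := by linear_combination hy - hx
      exact G2.ext h2 (mul_right_cancel₀ h0 this) hc hd
  have := Fintype.card_le_of_injective _ hinj
  simpa [ZMod.card] using this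

theorem T_pow (n : ℕ) : (T ^ n).a = 8 ^ n ∧ (T ^ n).b = 0 ∧ (T ^ n).c = 0 ∧ (T ^ n).d = 85 ^ n := by
  induction n with
  | zero => simp
  | succ n ih =>
    obtain ⟨h1, h2, h3, h4⟩ := ih
    simp only [pow_succ, mul_a, mul_b, mul_c, mul_d, h1, h2, h3, h4, T_a, T_b, T_c, T_d]
    refine ⟨by ring, by ring, by ring, by ring⟩

theorem un_add (s t : ZMod 97) : un (s + t) = un s * un t := by
  ext <;> simp [add_comm]

theorem un_zero : un 0 = 1 := rfl

end G2

open G2

/-- The subgroup of order 16 in the multiplicative group. -/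
def Hs : Finset (ZMod 97) := Finset.univ.filter (fun a => a ^ 16 = 1)

theorem mem_Hs {a : ZMod 97} : a ∈ Hs ↔ a ^ 16 = 1 := by simp [Hs]

theorem Hs_eq : Hs = (Finset.range 16).image (fun k => (8 : ZMod 97) ^ k) := by decide +kernel

theorem sum_Hs {M : Type*} [AddCommMonoid M] (F : ZMod 97 → M) :
    ∑ a ∈ Hs, F a = ∑ k ∈ Finset.range 16, F (8 ^ k) := by
  rw [Hs_eq, Finset.sum_image]
  have : ∀ i ∈ Finset.range 16, ∀ j ∈ Finset.range 16, (8 : ZMod 97) ^ i = 8 ^ j → i = j := by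
    decide +kernel
  intro i hi j hj h
  exact this i hi j hj h

theorem card_Hs : Hs.card = 16 := by decide +kernel

theorem ne_zero_of_mem {a : ZMod 97} (ha : a ∈ Hs) : a ≠ 0 := by
  rintro rfl
  rw [mem_Hs] at ha
  simp at ha

theorem sum_Hs_neg {M : Type*} [AddCommMonoid M] (F : ZMod 97 → M) :
    ∑ a ∈ Hs, F (-a) = ∑ a ∈ Hs, F a := by
  refine Finset.sum_nbij' (fun a => -a) (fun a => -a) ?_ ?_ ?_ ?_ ?_
  · intro a ha; rw [mem_Hs] at ha ⊢; rw [neg_pow, ha]; decide
  · intro a ha; rw [mem_Hs] at ha ⊢; rw [neg_pow, ha]; decide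
  · intro a _; simp
  · intro a _; simp
  · intro a _; rfl

theorem sum_Hs_inv {M : Type*} [AddCommMonoid M] (F : ZMod 97 → M) :
    ∑ a ∈ Hs, F (a⁻¹) = ∑ a ∈ Hs, F a := by
  refine Finset.sum_nbij' (fun a => a⁻¹) (fun a => a⁻¹) ?_ ?_ ?_ ?_ ?_
  · intro a ha; rw [mem_Hs] at ha ⊢; rw [inv_pow, ha, inv_one]
  · intro a ha; rw [mem_Hs] at ha ⊢; rw [inv_pow, ha, inv_one]
  · intro a _; simp
  · intro a _; simp
  · intro a _; rfl

theorem sum_Hs_mul {M : Type*} [AddCommMonoid M] (F : ZMod 97 → M) {c : ZMod 97} (hc : c ∈ Hs) :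
    ∑ a ∈ Hs, F (c * a) = ∑ a ∈ Hs, F a := by
  have hc0 := ne_zero_of_mem hc
  have hc' := mem_Hs.1 hc
  refine Finset.sum_nbij' (fun a => c * a) (fun a => c⁻¹ * a) ?_ ?_ ?_ ?_ ?_
  · intro a ha; rw [mem_Hs] at ha ⊢; rw [mul_pow, ha, hc', one_mul]
  · intro a ha; rw [mem_Hs] at ha ⊢; rw [mul_pow, inv_pow, ha, hc', inv_one, one_mul]
  · intro a _; exact inv_mul_cancel_left₀ hc0 a
  · intro a _; exact mul_inv_cancel_left₀ hc0 a
  · intro a _; rfl

/-- Right invariance under `T`. -/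
def TInv {X : Type*} (f : G2 → X) : Prop := ∀ g, f (g * T) = f g
/-- Right invariance under `w`. -/
def WInv {X : Type*} (f : G2 → X) : Prop := ∀ g, f (g * w) = f g

theorem TInv.pow {X : Type*} {f : G2 → X} (hf : TInv f) (n : ℕ) (g : G2) :
    f (g * T ^ n) = f g := by
  induction n with
  | zero => simp
  | succ n ih => rw [pow_succ, ← mul_assoc, hf, ih]

theorem TInv.diag {X : Type*} {f : G2 → X} (hf : TInv f) (g k : G2) (hb : k.b = 0)
    (hc : k.c = 0) (ha : k.a ^ 16 = 1) : f (g * k) = f g := by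
  have h1 : k.a ∈ Hs := mem_Hs.2 ha
  rw [Hs_eq, Finset.mem_image] at h1
  obtain ⟨n, -, hn⟩ := h1
  have h2 : k = T ^ n := by
    obtain ⟨t1, t2, t3, t4⟩ := T_pow n
    have hk := k.h
    rw [hb, zero_mul, sub_zero] at hk
    have h85 : (8 : ZMod 97) ^ n * 85 ^ n = 1 := by
      rw [← mul_pow]; have : (8 : ZMod 97) * 85 = 1 := by decide
      rw [this, one_pow]
    have hne : (8 : ZMod 97) ^ n ≠ 0 := by
      intro h; rw [h, zero_mul] at h85; exact zero_ne_one h85
    ext
    · rw [t1, ← hn]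
    · rw [t2, hb]
    · rw [t3, hc]
    · rw [t4]
      apply mul_left_cancel₀ hne
      rw [h85, hn, hk]
  rw [h2, hf.pow]

/-- The half operator. -/
def Ap {R : Type*} [AddCommMonoid R] (f : G2 → R) (g : G2) : R := ∑ a ∈ Hs, f (g * un a)

/-- The adjacency operator on invariant functions. -/
def AA {R : Type*} [AddCommMonoid R] (f : G2 → R) (g : G2) : R := Ap f g + Ap f (g * w)

theorem T_mul_un (a : ZMod 97) : T * un a = un (64 * a) * T := by
  have h : (85 : ZMod 97) * 64 = 8 := by decide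
  ext
  · simp
  · simp; linear_combination -a * h
  · simp
  · simp

theorem w_sq_mul (g : G2) : g * w * w = g * T ^ 8 := by
  obtain ⟨t1, t2, t3, t4⟩ := T_pow 8
  have e1 : (8 : ZMod 97) ^ 8 = -1 := by decide
  have e2 : (85 : ZMod 97) ^ 8 = -1 := by decide
  rw [e1] at t1; rw [e2] at t4
  ext <;> simp [t1, t2, t3, t4]

theorem w_sq : w * w = T ^ 8 := by
  have := w_sq_mul 1; simpa using this

theorem T8_mul_un (a : ZMod 97) : T ^ 8 * un a = un a * T ^ 8 := by
  obtain ⟨t1, t2, t3, t4⟩ := T_pow 8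
  have e1 : (8 : ZMod 97) ^ 8 = -1 := by decide
  have e2 : (85 : ZMod 97) ^ 8 = -1 := by decide
  rw [e1] at t1; rw [e2] at t4
  ext <;> simp [t1, t2, t3, t4]

theorem T_mul_w_T : T * w * T = w := by
  have h : (8 : ZMod 97) * 85 = 1 := by decide
  have h' : (85 : ZMod 97) * 8 = 1 := by decide
  ext <;> simp [h, h']

theorem Ap_TInv {R : Type*} [AddCommMonoid R] {f : G2 → R} (hf : TInv f) : TInv (Ap f) := by
  intro g
  have h64 : (64 : ZMod 97) ∈ Hs := by decide +kernel
  unfold Ap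
  rw [← sum_Hs_mul (fun a => f (g * un a)) h64]
  refine Finset.sum_congr rfl fun a _ => ?_
  rw [mul_assoc, T_mul_un, ← mul_assoc, hf]

theorem AA_TInv {R : Type*} [AddCommMonoid R] {f : G2 → R} (hf : TInv f) : TInv (AA f) := by
  intro g
  unfold AA
  rw [Ap_TInv hf]
  congr 1
  have h := Ap_TInv hf (g * T * w)
  rw [← h]
  congr 1
  rw [mul_assoc, mul_assoc, ← mul_assoc T, T_mul_w_T]

theorem AA_WInv {R : Type*} [AddCommMonoid R] {f : G2 → R} (hf : TInv f) : WInv (AA f) := by
  intro g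
  unfold AA
  rw [w_sq_mul, (Ap_TInv hf).pow, add_comm]

end Pool.Agent.Folk588
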