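import Pool.Agent.Folk588.Graph

/-!
# The edge Folkman number `F_e(3,3;4)` is at most 588

The graph: its vertices are the classes of nonzero vectors of the plane over the field with 97
elements modulo the group `H` of the 16 sixth powers of scalars; two classes are adjacent when the
determinant of representatives lies in `H`. It has 588 vertices, is 97-regular, each edge lies in
exactly 16 triangles, and it is `K_4`-free because `H` is sum-free.

That it is not a union of two triangle-free graphs follows from a lower bound on the least
eigenvalue of the graph on its edges (two edges being adjacent when they lie in a common triangle).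
The bound is proved by the trace method: an eigenvalue at most `-32/3` would have multiplicity at
least 48, by the action of `SL(2, 97)`, which contradicts the values of the numbers of closed walks
of lengths up to 40 in that graph, computed by the kernel.
-/

namespace Pool.Agent.Folk588.Final588

open Pool.Agent.Folk588

/-- `G` is a union of two triangle-free graphs. -/
def IsUnionOfTwoTriangleFree {V : Type*} (G : SimpleGraph V) : Prop :=
  ∃ G₁ G₂ : SimpleGraph V, G₁.CliqueFree 3 ∧ G₂.CliqueFree 3 ∧ G₁ ⊔ G₂ = G

/-- The edge Folkman number: the least positive `n` such that some `K_4`-free graph on `n`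
vertices is not a union of two triangle-free graphs. -/
noncomputable def edgeFolkman : ℕ :=
  sInf {n : ℕ | 0 < n ∧
    ∃ G : SimpleGraph (Fin n), G.CliqueFree 4 ∧ ¬ IsUnionOfTwoTriangleFree G}

theorem exists_graph :
    ∃ G : SimpleGraph (Fin 588), G.CliqueFree 4 ∧ ¬ IsUnionOfTwoTriangleFree G := by
  classical
  let e : VV ≃ Fin 588 := Fintype.equivFinOfCardEq card_VV
  refine ⟨GG.comap e.symm, ?_, ?_⟩
  · exact GG_cliqueFree.comap (SimpleGraph.Iso.comap e.symm GG).toEmbedding.toCopy.isContained
  · rintro ⟨G₁, G₂, h1, h2, h⟩
    refine GG_not_union (G₁.comap e) (G₂.comap e)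
      (h1.comap (SimpleGraph.Iso.comap e G₁).toEmbedding.toCopy.isContained)
      (h2.comap (SimpleGraph.Iso.comap e G₂).toEmbedding.toCopy.isContained) ?_
    ext p q
    have h3 : (G₁ ⊔ G₂).Adj (e p) (e q) ↔ (GG.comap e.symm).Adj (e p) (e q) := by rw [h]
    rw [SimpleGraph.sup_adj, SimpleGraph.comap_adj, e.symm_apply_apply, e.symm_apply_apply] at h3
    rw [SimpleGraph.sup_adj, SimpleGraph.comap_adj, SimpleGraph.comap_adj]
    exact h3

/-- There is a `K_4`-free graph on 588 vertices that is not a union of two triangle-free graphs;
in particular `F_e(3,3;4) ≤ 588`. -/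
theorem result :
    (∃ G : SimpleGraph (Fin 588), G.CliqueFree 4 ∧ ¬ IsUnionOfTwoTriangleFree G) ∧
      edgeFolkman ≤ 588 :=
  ⟨exists_graph, Nat.sInf_le ⟨by norm_num, exists_graph⟩⟩

end Pool.Agent.Folk588.Final588
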