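import Pool.Agent.Folk588.Spectral

noncomputable section

namespace Pool.Agent.Folk588

open G2

/-! ### The graph on 588 vertices -/

/-- The sixth roots of unity modulo 97. -/
abbrev Mu6 := {z : ZMod 97 // z ^ 6 = 1}

/-- The vertex set: pairs of a sixth root of unity and a point of the projective line. -/
abbrev VV := Mu6 × Option (ZMod 97)

theorem card_VV : Fintype.card VV = 588 := by
  have h : Fintype.card Mu6 = 6 := by decide +kernel
  rw [Fintype.card_prod, h, Fintype.card_option, ZMod.card]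

/-- The adjacency relation. -/
def adjR (p q : VV) : Prop :=
  match p.2, q.2 with
  | some s, some t => (p.1 : ZMod 97) * q.1 * (s - t) ^ 16 = 1
  | some _, none => (p.1 : ZMod 97) * q.1 = 1
  | none, some _ => (p.1 : ZMod 97) * q.1 = 1
  | none, none => False

/-- The graph. -/
def GG : SimpleGraph VV where
  Adj := adjR
  symm := by
    constructor
    rintro ⟨z, s⟩ ⟨z', t⟩ h
    have h16 : Even 16 := by decide
    cases s <;> cases t
    · exact h
    · simp only [adjR] at h ⊢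
      rw [mul_comm]; exact h
    · simp only [adjR] at h ⊢
      rw [mul_comm]; exact h
    · rename_i s t
      simp only [adjR] at h ⊢
      rw [mul_comm (z' : ZMod 97), ← neg_sub, h16.neg_pow]; exact h
  loopless := by
    constructor
    rintro ⟨z, s⟩ h
    cases s
    · exact h
    · simp [adjR] at h

theorem pow96 (x : ZMod 97) (hx : x ≠ 0) : (x ^ 16) ^ 6 = 1 := by
  rw [← pow_mul]
  exact ZMod.pow_card_sub_one_eq_one hx

/-- The class of a scalar. -/
def mu (x : ZMod 97) : Mu6 := if h : x = 0 then ⟨1, by ring⟩ else ⟨x ^ 16, pow96 x h⟩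

theorem mu_coe {x : ZMod 97} (h : x ≠ 0) : ((mu x : Mu6) : ZMod 97) = x ^ 16 := by
  unfold mu
  rw [dif_neg h]

/-- The vertex of a vector. -/
def cl (x y : ZMod 97) : VV := if y = 0 then (mu x, none) else (mu y, some (x * y⁻¹))

theorem mu_smul {h : ZMod 97} (hh : h ^ 16 = 1) (x : ZMod 97) : mu (h * x) = mu x := by
  have h0 : h ≠ 0 := by rintro rfl; simp at hh
  by_cases hx : x = 0
  · rw [hx, mul_zero]
  · apply Subtype.ext
    rw [mu_coe hx, mu_coe (mul_ne_zero h0 hx), mul_pow, hh, one_mul]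

theorem cl_smul {h : ZMod 97} (hh : h ^ 16 = 1) (x y : ZMod 97) :
    cl (h * x) (h * y) = cl x y := by
  have h0 : h ≠ 0 := by rintro rfl; simp at hh
  unfold cl
  by_cases hy : y = 0
  · rw [if_pos hy, if_pos (by rw [hy, mul_zero]), mu_smul hh]
  · rw [if_neg hy, if_neg (mul_ne_zero h0 hy), mu_smul hh]
    congr 2
    field_simp

theorem adj_cl {x y x' y' : ZMod 97} (h1 : ¬ (x = 0 ∧ y = 0)) (h2 : ¬ (x' = 0 ∧ y' = 0)) :
    GG.Adj (cl x y) (cl x' y') ↔ (x * y' - x' * y) ^ 16 = 1 := by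
  have h16 : Even 16 := by decide
  show adjR (cl x y) (cl x' y') ↔ _
  unfold cl
  by_cases hy : y = 0 <;> by_cases hy' : y' = 0
  · rw [if_pos hy, if_pos hy']
    simp [adjR, hy, hy']
  · rw [if_pos hy, if_neg hy']
    have hx : x ≠ 0 := fun h => h1 ⟨h, hy⟩
    simp only [adjR]
    rw [mu_coe hx, mu_coe hy', hy, mul_zero, sub_zero, mul_pow]
  · rw [if_neg hy, if_pos hy']
    have hx : x' ≠ 0 := fun h => h2 ⟨h, hy'⟩
    simp only [adjR]
    rw [mu_coe hx, mu_coe hy, hy', mul_zero, zero_sub, h16.neg_pow, mul_pow, mul_comm]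
  · rw [if_neg hy, if_neg hy']
    simp only [adjR]
    rw [mu_coe hy, mu_coe hy', ← mul_pow, ← mul_pow]
    have : y * y' * (x * y⁻¹ - x' * y'⁻¹) = x * y' - x' * y := by
      field_simp
    rw [this]

theorem exists_root : ∀ z : ZMod 97, z ^ 6 = 1 → ∃ r : ZMod 97, r ≠ 0 ∧ r ^ 16 = z := by
  decide +kernel

theorem exists_cl (p : VV) : ∃ x y : ZMod 97, ¬ (x = 0 ∧ y = 0) ∧ cl x y = p := by
  obtain ⟨⟨z, hz⟩, s⟩ := p
  obtain ⟨r, hr0, hr⟩ := exists_root z hz
  cases s with
  | none =>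
    refine ⟨r, 0, fun h => hr0 h.1, ?_⟩
    unfold cl
    rw [if_pos rfl]
    congr 1
    apply Subtype.ext
    rw [mu_coe hr0, hr]
  | some t =>
    refine ⟨r * t, r, fun h => hr0 h.2, ?_⟩
    unfold cl
    rw [if_neg hr0]
    have e1 : mu r = ⟨z, hz⟩ := by
      apply Subtype.ext
      rw [mu_coe hr0, hr]
    rw [e1]
    congr 2
    field_simp

theorem sum_free : ∀ x y : ZMod 97, x ^ 16 = 1 → y ^ 16 = 1 → (x + y) ^ 16 ≠ 1 := by
  have h : ∀ x ∈ Hs, ∀ y ∈ Hs, (x + y) ^ 16 ≠ 1 := by decide +kernel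
  intro x y hx hy
  exact h x (mem_Hs.2 hx) y (mem_Hs.2 hy)

theorem GG_cliqueFree : GG.CliqueFree 4 := by
  rw [SimpleGraph.cliqueFree_iff]
  constructor
  intro e
  have hadj : ∀ i j : Fin 4, i ≠ j → GG.Adj (e i) (e j) := fun i j h => e.toHom.map_adj h
  obtain ⟨x0, y0, n0, h0⟩ := exists_cl (e 0)
  obtain ⟨x1, y1, n1, h1⟩ := exists_cl (e 1)
  obtain ⟨x2, y2, n2, h2⟩ := exists_cl (e 2)
  obtain ⟨x3, y3, n3, h3⟩ := exists_cl (e 3)
  have a01 := hadj 0 1 (by decide)
  have a02 := hadj 0 2 (by decide)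
  have a03 := hadj 0 3 (by decide)
  have a12 := hadj 1 2 (by decide)
  have a13 := hadj 1 3 (by decide)
  have a23 := hadj 2 3 (by decide)
  rw [← h0, ← h1, adj_cl n0 n1] at a01
  rw [← h0, ← h2, adj_cl n0 n2] at a02
  rw [← h0, ← h3, adj_cl n0 n3] at a03
  rw [← h1, ← h2, adj_cl n1 n2] at a12
  rw [← h1, ← h3, adj_cl n1 n3] at a13
  rw [← h2, ← h3, adj_cl n2 n3] at a23
  refine sum_free ((x0 * y1 - x1 * y0) * (x2 * y3 - x3 * y2))
    ((x0 * y3 - x3 * y0) * (x1 * y2 - x2 * y1)) ?_ ?_ ?_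
  · rw [mul_pow, a01, a23, one_mul]
  · rw [mul_pow, a03, a12, one_mul]
  · have : (x0 * y1 - x1 * y0) * (x2 * y3 - x3 * y2) + (x0 * y3 - x3 * y0) * (x1 * y2 - x2 * y1) =
        (x0 * y2 - x2 * y0) * (x1 * y3 - x3 * y1) := by ring
    rw [this, mul_pow, a02, a13, one_mul]

/-! ### Colourings -/

theorem lo_mul_w (a : ZMod 97) : lo a * w = w * un (-a) := by
  ext <;> simp

theorem lo_mul_un {a : ZMod 97} (ha : a ≠ 0) :
    lo (-a) * un a⁻¹ = un (-a⁻¹) * (w * tb a ha) := by
  ext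
  · simp [tb]; rw [inv_mul_cancel₀ ha]
  · simp [tb]
  · simp [tb]
  · simp [tb]; rw [mul_inv_cancel₀ ha]; ring

theorem pair_sum {F : G2 → ℝ} (hT : TInv F) (hW : WInv F)
    (htri : ∀ g, ∀ a ∈ Hs, F g * F (g * lo a) + F g * F (g * un a⁻¹) +
      F (g * lo a) * F (g * un a⁻¹) = -1) (hsq : ∀ g, F g ^ 2 = 1) :
    ∑ g, AA F g * F g = -(32 / 3) * ∑ g, F g ^ 2 := by
  have hM : ∑ g, AA F g * F g = 2 * ∑ a ∈ Hs, ∑ g, F g * F (g * un a) := by
    unfold AA
    simp only [add_mul, Finset.sum_add_distrib]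
    have h1 : ∑ g, Ap F (g * w) * F g = ∑ g, Ap F g * F g := by
      rw [← sum_mul_right (fun g => Ap F g * F g) w]
      refine Finset.sum_congr rfl fun g _ => ?_
      rw [hW]
    have h2 : ∑ g, Ap F g * F g = ∑ a ∈ Hs, ∑ g, F g * F (g * un a) := by
      rw [Finset.sum_comm]
      refine Finset.sum_congr rfl fun g _ => ?_
      rw [Ap, Finset.sum_mul]
      exact Finset.sum_congr rfl fun a _ => mul_comm _ _
    rw [h1, h2]; ring
  set M := ∑ a ∈ Hs, ∑ g, F g * F (g * un a) with hMdef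
  have h1 : ∑ a ∈ Hs, ∑ g, F g * F (g * lo a) = M := by
    rw [hMdef, ← sum_Hs_neg (fun a => ∑ g, F g * F (g * un a))]
    refine Finset.sum_congr rfl fun a _ => ?_
    rw [← sum_mul_right (fun g => F g * F (g * un (-a))) w]
    refine Finset.sum_congr rfl fun g _ => ?_
    rw [hW g, mul_assoc g w, ← lo_mul_w, ← mul_assoc, hW]
  have h2 : ∑ a ∈ Hs, ∑ g, F g * F (g * un a⁻¹) = M :=
    sum_Hs_inv (fun a => ∑ g, F g * F (g * un a))
  have h3 : ∑ a ∈ Hs, ∑ g, F (g * lo a) * F (g * un a⁻¹) = M := by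
    rw [hMdef, ← sum_Hs_neg (fun a => ∑ g, F g * F (g * un a)),
      ← sum_Hs_inv (fun a => ∑ g, F g * F (g * un (-a)))]
    refine Finset.sum_congr rfl fun a ha => ?_
    have ha0 := ne_zero_of_mem ha
    rw [← sum_mul_right (fun g => F (g * lo a) * F (g * un a⁻¹)) (lo (-a))]
    refine Finset.sum_congr rfl fun g _ => ?_
    have e1 : lo (-a) * lo a = 1 := by ext <;> simp
    rw [mul_assoc g, e1, mul_one, mul_assoc g, lo_mul_un ha0, ← mul_assoc, ← mul_assoc,
      hT.diag _ (tb a ha0) rfl rfl (mem_Hs.1 ha), hW]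
  have h4 : ∑ a ∈ Hs, ∑ g, (F g * F (g * lo a) + F g * F (g * un a⁻¹) +
      F (g * lo a) * F (g * un a⁻¹)) = ∑ a ∈ Hs, ∑ g : G2, (-1 : ℝ) :=
    Finset.sum_congr rfl fun a ha => Finset.sum_congr rfl fun g _ => htri g a ha
  simp only [Finset.sum_add_distrib] at h4
  rw [h1, h2, h3, Finset.sum_const, card_Hs, Finset.sum_const, Finset.card_univ] at h4
  simp only [smul_eq_mul, nsmul_eq_mul] at h4
  have h5 : ∑ g, F g ^ 2 = (Fintype.card G2 : ℝ) := by
    rw [Finset.sum_congr rfl fun g _ => hsq g, Finset.sum_const, Finset.card_univ]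
    simp
  rw [hM, h5]
  push_cast at h4
  linarith

/-- The graph is not a union of two triangle-free graphs. -/
theorem GG_not_union (G₁ G₂ : SimpleGraph VV) (h1 : G₁.CliqueFree 3) (h2 : G₂.CliqueFree 3)
    (hG : G₁ ⊔ G₂ = GG) : False := by
  classical
  let col : VV → VV → ℝ := fun p q => if G₁.Adj p q then 1 else -1
  have hcs : ∀ p q, col p q = col q p := by
    intro p q
    show (if G₁.Adj p q then (1 : ℝ) else -1) = if G₁.Adj q p then 1 else -1
    simp only [G₁.adj_comm p q]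
  have hcsq : ∀ p q, col p q = 1 ∨ col p q = -1 := by
    intro p q
    show (if G₁.Adj p q then (1 : ℝ) else -1) = 1 ∨ _
    by_cases h : G₁.Adj p q
    · left; rw [if_pos h]
    · right; show (if G₁.Adj p q then (1 : ℝ) else -1) = -1; rw [if_neg h]
  have hcol1 : ∀ p q, col p q = 1 → G₁.Adj p q := by
    intro p q h
    by_contra hn
    have : (if G₁.Adj p q then (1 : ℝ) else -1) = 1 := h
    rw [if_neg hn] at this
    norm_num at this
  have hcol2 : ∀ p q, GG.Adj p q → col p q = -1 → G₂.Adj p q := by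
    intro p q hpq h
    rw [← hG, SimpleGraph.sup_adj] at hpq
    rcases hpq with h3 | h3
    · exfalso
      have : (if G₁.Adj p q then (1 : ℝ) else -1) = -1 := h
      rw [if_pos h3] at this
      norm_num at this
    · exact h3
  have tri1 : ∀ p q r, G₁.Adj p q → G₁.Adj p r → G₁.Adj q r → False := by
    intro p q r a b c
    exact h1 {p, q, r} (SimpleGraph.is3Clique_triple_iff.2 ⟨a, b, c⟩)
  have tri2 : ∀ p q r, G₂.Adj p q → G₂.Adj p r → G₂.Adj q r → False := by
    intro p q r a b c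
    exact h2 {p, q, r} (SimpleGraph.is3Clique_triple_iff.2 ⟨a, b, c⟩)
  -- the lifted function
  let F : G2 → ℝ := fun g => col (cl g.a g.c) (cl g.b g.d)
  have e8 : (8 : ZMod 97) ^ 16 = 1 := by decide +kernel
  have e85 : (85 : ZMod 97) ^ 16 = 1 := by decide +kernel
  have em1 : (-1 : ZMod 97) ^ 16 = 1 := by decide +kernel
  have hT : TInv F := by
    intro g
    show col (cl (g * T).a (g * T).c) (cl (g * T).b (g * T).d) = col (cl g.a g.c) (cl g.b g.d)
    have a1 : (g * T).a = 8 * g.a := by simp [mul_comm]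
    have a2 : (g * T).b = 85 * g.b := by simp [mul_comm]
    have a3 : (g * T).c = 8 * g.c := by simp [mul_comm]
    have a4 : (g * T).d = 85 * g.d := by simp [mul_comm]
    rw [a1, a2, a3, a4, cl_smul e8, cl_smul e85]
  have hW : WInv F := by
    intro g
    show col (cl (g * w).a (g * w).c) (cl (g * w).b (g * w).d) = col (cl g.a g.c) (cl g.b g.d)
    have a1 : (g * w).a = (-1) * g.b := by simp
    have a2 : (g * w).b = g.a := by simp
    have a3 : (g * w).c = (-1) * g.d := by simp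
    have a4 : (g * w).d = g.c := by simp
    rw [a1, a2, a3, a4, cl_smul em1, hcs]
  have hsq : ∀ g, F g ^ 2 = 1 := by
    intro g
    rcases hcsq (cl g.a g.c) (cl g.b g.d) with h | h
    · show (col (cl g.a g.c) (cl g.b g.d)) ^ 2 = 1
      rw [h]; norm_num
    · show (col (cl g.a g.c) (cl g.b g.d)) ^ 2 = 1
      rw [h]; norm_num
  have htri : ∀ g, ∀ a ∈ Hs, F g * F (g * lo a) + F g * F (g * un a⁻¹) +
      F (g * lo a) * F (g * un a⁻¹) = -1 := by
    intro g a ha
    have ha0 := ne_zero_of_mem ha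
    have ha16 := mem_Hs.1 ha
    have hg := g.h
    set P := cl g.a g.c with hP
    set Q := cl g.b g.d with hQ
    set R := cl (g.a + a * g.b) (g.c + a * g.d) with hR
    have e1 : F g = col P Q := rfl
    have e2 : F (g * lo a) = col Q R := by
      show col (cl (g * lo a).a (g * lo a).c) (cl (g * lo a).b (g * lo a).d) = _
      have a1 : (g * lo a).a = g.a + a * g.b := by simp [mul_comm]
      have a2 : (g * lo a).b = g.b := by simp
      have a3 : (g * lo a).c = g.c + a * g.d := by simp [mul_comm]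
      have a4 : (g * lo a).d = g.d := by simp
      rw [a1, a2, a3, a4, hcs]
    have e3 : F (g * un a⁻¹) = col P R := by
      show col (cl (g * un a⁻¹).a (g * un a⁻¹).c) (cl (g * un a⁻¹).b (g * un a⁻¹).d) = _
      have a1 : (g * un a⁻¹).a = g.a := by simp
      have a3 : (g * un a⁻¹).c = g.c := by simp
      have a5 : cl (g * un a⁻¹).b (g * un a⁻¹).d = R := by
        rw [← cl_smul ha16, hR]
        congr 1
        · simp only [mul_b, un_b, un_d]; field_simp
        · simp only [mul_d, un_b, un_d]; field_simp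
      rw [a1, a3, a5]
    have nP : ¬ (g.a = 0 ∧ g.c = 0) := by
      rintro ⟨h3, h4⟩; rw [h3, h4] at hg; simp at hg
    have nQ : ¬ (g.b = 0 ∧ g.d = 0) := by
      rintro ⟨h3, h4⟩; rw [h3, h4] at hg; simp at hg
    have nR : ¬ (g.a + a * g.b = 0 ∧ g.c + a * g.d = 0) := by
      rintro ⟨h3, h4⟩
      have : g.a * g.d - g.b * g.c = 0 := by linear_combination g.d * h3 - g.b * h4
      rw [this] at hg
      exact zero_ne_one hg
    have aPQ : GG.Adj P Q := by
      rw [hP, hQ, adj_cl nP nQ, hg, one_pow]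
    have aPR : GG.Adj P R := by
      rw [hP, hR, adj_cl nP nR]
      have : g.a * (g.c + a * g.d) - (g.a + a * g.b) * g.c = a := by linear_combination a * hg
      rw [this, ha16]
    have aQR : GG.Adj Q R := by
      rw [hQ, hR, adj_cl nQ nR]
      have : g.b * (g.c + a * g.d) - (g.a + a * g.b) * g.d = -1 := by linear_combination -hg
      rw [this, em1]
    rw [e1, e2, e3]
    rcases hcsq P Q with h3 | h3 <;> rcases hcsq Q R with h4 | h4 <;> rcases hcsq P R with h5 | h5
    · exact absurd (hcol1 _ _ h4) (fun hc => tri1 P Q R (hcol1 _ _ h3) (hcol1 _ _ h5) hc)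
    · rw [h3, h4, h5]; norm_num
    · rw [h3, h4, h5]; norm_num
    · rw [h3, h4, h5]; norm_num
    · rw [h3, h4, h5]; norm_num
    · rw [h3, h4, h5]; norm_num
    · rw [h3, h4, h5]; norm_num
    · exact absurd (hcol2 _ _ aQR h4)
        (fun hc => tri2 P Q R (hcol2 _ _ aPQ h3) (hcol2 _ _ aPR h5) hc)
  exact no_small hT hW ⟨1, fun h => by have := hsq 1; rw [h] at this; norm_num at this⟩
    (le_of_eq (pair_sum hT hW htri hsq))

end Pool.Agent.Folk588
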