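import Pool.Agent.Folk588.Comp

noncomputable section

set_option linter.unusedSimpArgs false
set_option exponentiation.threshold 256

namespace Pool.Agent.Folk588

open G2

/-! ### The list functions -/

theorem length_zadd (l1 l2 : List ℕ) : (zadd l1 l2).length = min l1.length l2.length := by
  induction l1 generalizing l2 with
  | nil => simp [zadd]
  | cons a l ih =>
    cases l2 with
    | nil => rfl
    | cons b t =>
      show ((Nat.add a b) :: zadd l t).length = _
      simp [ih]

theorem getD_zadd (l1 l2 : List ℕ) (e : ℕ) (h1 : e < l1.length) (h2 : e < l2.length) :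
    (zadd l1 l2).getD e 0 = l1.getD e 0 + l2.getD e 0 := by
  induction l1 generalizing l2 e with
  | nil => simp at h1
  | cons a l ih =>
    cases l2 with
    | nil => simp at h2
    | cons b t =>
      show ((Nat.add a b) :: zadd l t).getD e 0 = _
      cases e with
      | zero => simp
      | succ e =>
        simp only [List.getD_cons_succ]
        exact ih t e (by simpa using h1) (by simpa using h2)

theorem drp_eq (n : ℕ) (l : List ℕ) : drp n l = l.drop n := by
  induction n generalizing l with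
  | zero => rfl
  | succ n ih =>
    cases l with
    | nil => simp [drp]
    | cons a t =>
      show drp n t = _
      rw [ih]; rfl

theorem app_eq (l1 l2 : List ℕ) : app l1 l2 = l1 ++ l2 := by
  induction l1 with
  | nil => rfl
  | cons a l ih =>
    show a :: app l l2 = _
    rw [ih]; rfl

theorem hd_eq (l : List ℕ) : hd l = l.getD 0 0 := by cases l <;> rfl

theorem tl_eq (l : List ℕ) : tl l = l.tail := by cases l <;> rfl

theorem getD_drop' (l : List ℕ) (n e : ℕ) : (l.drop n).getD e 0 = l.getD (n + e) 0 := by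
  simp [List.getD_eq_getElem?_getD, List.getElem?_drop]

theorem nth_eq (n : ℕ) (l : List ℕ) : nth n l = l.getD n 0 := by
  rw [nth, drp_eq, hd_eq, getD_drop', add_zero]

theorem getD_app (L : List ℕ) (hL : L.length = 97) (e k : ℕ) (he : e < 97) (hk : k < 97) :
    (L ++ L).getD (k + e) 0 = L.getD ((e + k) % 97) 0 := by
  rw [List.getD_eq_getElem?_getD, List.getD_eq_getElem?_getD]
  by_cases h : k + e < 97
  · rw [List.getElem?_append_left (by omega), Nat.mod_eq_of_lt (by omega), add_comm]
  · rw [List.getElem?_append_right (by omega), hL]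
    congr 2
    omega

theorem convs_spec (L : List ℕ) (hL : L.length = 97) (sh : List ℕ) (hsh : ∀ k ∈ sh, k < 97) :
    (convs (app L L) (List.replicate 97 0) sh).length = 97 ∧
    ∀ e < 97, (convs (app L L) (List.replicate 97 0) sh).getD e 0 =
      (sh.map (fun k => L.getD ((e + k) % 97) 0)).sum := by
  induction sh with
  | nil =>
    constructor
    · exact List.length_replicate
    · intro e he
      show (List.replicate 97 0).getD e 0 = _
      rw [List.getD_eq_getElem?_getD, List.getElem?_replicate, if_pos he]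
      rfl
  | cons k sh ih =>
    obtain ⟨ih1, ih2⟩ := ih (fun k hk => hsh k (List.mem_cons_of_mem _ hk))
    have hk : k < 97 := hsh k List.mem_cons_self
    have hdl : (drp k (app L L)).length = 194 - k := by
      rw [drp_eq, app_eq, List.length_drop, List.length_append, hL]
    constructor
    · show (zadd (convs (app L L) (List.replicate 97 0) sh) (drp k (app L L))).length = _
      rw [length_zadd, ih1, hdl]; omega
    · intro e he
      show (zadd (convs (app L L) (List.replicate 97 0) sh) (drp k (app L L))).getD e 0 = _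
      rw [getD_zadd _ _ _ (by rw [ih1]; exact he) (by rw [hdl]; omega), ih2 e he, drp_eq,
        getD_drop', app_eq, getD_app L hL e k he hk, List.map_cons, List.sum_cons, add_comm]

theorem shifts_lt : ∀ k ∈ shifts, k < 97 := by decide

theorem shifts_eq : shifts.map (fun k : ℕ => (k : ZMod 97)) =
    (List.range 16).map (fun k : ℕ => (8 : ZMod 97) ^ k) := by decide +kernel

theorem sum_map_range {M : Type*} [AddCommMonoid M] (f : ℕ → M) (n : ℕ) :
    ((List.range n).map f).sum = ∑ k ∈ Finset.range n, f k := by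
  induction n with
  | zero => simp
  | succ n ih => rw [List.range_succ, List.map_append, List.sum_append, ih,
      Finset.sum_range_succ]; simp

theorem sum_shifts {M : Type*} [AddCommMonoid M] (F : ZMod 97 → M) :
    (shifts.map (fun k : ℕ => F (k : ZMod 97))).sum = ∑ a ∈ Hs, F a := by
  have h : (shifts.map (fun k : ℕ => F (k : ZMod 97))) =
      (shifts.map (fun k : ℕ => (k : ZMod 97))).map F := by
    rw [List.map_map]; rfl
  rw [h, shifts_eq, List.map_map, sum_Hs, sum_map_range]
  rfl

/-! ### Digits -/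

theorem dg_zero (a b : ℕ) (ha : a < 2 ^ 20384) : dg (a + 2 ^ 20384 * b) 0 = a := by
  unfold dg
  rw [Nat.mul_zero, Nat.shiftRight_zero, Nat.add_mul_mod_self_left, Nat.mod_eq_of_lt ha]

theorem dg_succ (a b i : ℕ) (ha : a < 2 ^ 20384) :
    dg (a + 2 ^ 20384 * b) (i + 1) = dg b i := by
  unfold dg
  rw [Nat.mul_add, Nat.mul_one, Nat.add_comm (20384 * i), Nat.shiftRight_add,
    Nat.shiftRight_eq_div_pow (a + 2 ^ 20384 * b), Nat.add_mul_div_left _ _ (by positivity),
    Nat.div_eq_of_lt ha, Nat.zero_add]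

theorem dg_zero' (a : ℕ) (ha : a < 2 ^ 20384) : dg a 0 = a := by
  unfold dg
  rw [Nat.mul_zero, Nat.shiftRight_zero, Nat.mod_eq_of_lt ha]

theorem dg_pk (r : ℕ → ℕ) (hr : ∀ i < 6, r i < 2 ^ 20384) (i : ℕ) (hi : i < 6) :
    dg (pk r) i = r i := by
  unfold pk
  have h0 := hr 0 (by norm_num)
  have h1 := hr 1 (by norm_num)
  have h2 := hr 2 (by norm_num)
  have h3 := hr 3 (by norm_num)
  have h4 := hr 4 (by norm_num)
  have h5 := hr 5 (by norm_num)
  match i, hi with
  | 0, _ => rw [dg_zero _ _ h0]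
  | 1, _ => rw [dg_succ _ _ _ h0, dg_zero _ _ h1]
  | 2, _ => rw [dg_succ _ _ _ h0, dg_succ _ _ _ h1, dg_zero _ _ h2]
  | 3, _ => rw [dg_succ _ _ _ h0, dg_succ _ _ _ h1, dg_succ _ _ _ h2, dg_zero _ _ h3]
  | 4, _ => rw [dg_succ _ _ _ h0, dg_succ _ _ _ h1, dg_succ _ _ _ h2, dg_succ _ _ _ h3,
      dg_zero _ _ h4]
  | 5, _ => rw [dg_succ _ _ _ h0, dg_succ _ _ _ h1, dg_succ _ _ _ h2, dg_succ _ _ _ h3,
      dg_succ _ _ _ h4, dg_zero' _ h5]

theorem pk_sum (sh : List ℕ) (F : ℕ → ℕ → ℕ) :
    (sh.map (fun k => pk (F k))).sum = pk (fun i => (sh.map (fun k => F k i)).sum) := by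
  induction sh with
  | nil => simp [pk]
  | cons k sh ih =>
    simp only [List.map_cons, List.sum_cons, ih]
    unfold pk
    generalize 2 ^ 20384 = Q
    ring

/-! ### Rows in the quotient ring -/


theorem NN_succ : NN + 1 = 2 ^ 20176 := by
  unfold NN
  exact Nat.sub_add_cancel Nat.one_le_two_pow

theorem NN_pos : 0 < NN := by
  have h := NN_succ
  have h2 : 2 ^ 1 ≤ 2 ^ 20176 := Nat.pow_le_pow_right (by norm_num) (by norm_num)
  omega

/-- The base in the quotient ring. -/
def BB : ZMod NN := 2 ^ 208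

theorem BB_pow : BB ^ 97 = 1 := by
  unfold BB
  rw [← pow_mul]
  have h : ((NN + 1 : ℕ) : ZMod NN) = ((2 ^ 20176 : ℕ) : ZMod NN) := by rw [NN_succ]
  rw [Nat.cast_add, ZMod.natCast_self, zero_add, Nat.cast_one, Nat.cast_pow] at h
  rw [h]
  norm_num

theorem BB_pow_mod (n : ℕ) : BB ^ (n % 97) = BB ^ n := by
  conv_rhs => rw [← Nat.mod_add_div n 97, pow_add, pow_mul, BB_pow, one_pow, mul_one]

theorem BB_pow_val (n : ℕ) (x : ZMod 97) (h : (n : ZMod 97) = x) : BB ^ n = BB ^ x.val := by
  rw [← h, ZMod.val_natCast, BB_pow_mod]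

/-- The value of a row. -/
def rho (f : G2 → ℕ) (γ : G2) : ZMod NN := ∑ s : ZMod 97, (f (un s * γ) : ZMod NN) * BB ^ s.val

theorem rho_un (f : G2 → ℕ) (s0 : ZMod 97) (γ : G2) :
    rho f (un s0 * γ) = BB ^ (-s0).val * rho f γ := by
  unfold rho
  rw [Finset.mul_sum, ← Equiv.sum_comp (Equiv.addRight (-s0))]
  refine Finset.sum_congr rfl fun s _ => ?_
  simp only [Equiv.coe_addRight]
  rw [← mul_assoc (un _), ← un_add, neg_add_cancel_right, ZMod.val_add, BB_pow_mod, pow_add]
  ring

theorem rho_Ap (f : G2 → ℕ) (γ : G2) : rho (Ap f) γ = ∑ a ∈ Hs, rho f (γ * un a) := by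
  unfold rho Ap
  rw [Finset.sum_comm]
  refine Finset.sum_congr rfl fun s _ => ?_
  rw [Nat.cast_sum, Finset.sum_mul]
  refine Finset.sum_congr rfl fun a _ => ?_
  rw [mul_assoc]

theorem rho_AA (f : G2 → ℕ) (γ : G2) : rho (AA f) γ = rho (Ap f) γ + rho (Ap f) (γ * w) := by
  unfold rho AA
  rw [← Finset.sum_add_distrib]
  refine Finset.sum_congr rfl fun s _ => ?_
  rw [Nat.cast_add, add_mul, mul_assoc]

theorem rho_w {f : G2 → ℕ} (hf : WInv f) (γ : G2) : rho f (γ * w) = rho f γ := by
  unfold rho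
  refine Finset.sum_congr rfl fun s _ => ?_
  rw [← mul_assoc, hf]

theorem rho_diag {f : G2 → ℕ} (hf : TInv f) (γ k : G2) (hb : k.b = 0)
    (hc : k.c = 0) (ha : k.a ^ 16 = 1) : rho f (γ * k) = rho f γ := by
  unfold rho
  refine Finset.sum_congr rfl fun s _ => ?_
  rw [← mul_assoc, hf.diag _ _ hb hc ha]

theorem c53 (i : ℕ) : (5 : ZMod 97) ^ i * 39 ^ i = 1 := by
  rw [← mul_pow]; have : (5 : ZMod 97) * 39 = 1 := by decide
  rw [this, one_pow]

/-- Representatives of the finite rows. -/
def gam (i : ℕ) (e : ZMod 97) : G2 := ⟨0, -39 ^ i, 5 ^ i, 5 ^ i * e, by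
  linear_combination c53 i⟩

/-- Representatives of the rows at infinity. -/
def gami (i : ℕ) : G2 := ⟨39 ^ i, 0, 0, 5 ^ i, by linear_combination c53 i⟩

theorem gam_un (i : ℕ) (e a : ZMod 97) : gam i e * un a = gam i (e + a) := by
  ext <;> simp [gam]
  ring

theorem gami_un (i : ℕ) (a : ZMod 97) : gami i * un a = un (39 ^ i * 39 ^ i * a) * gami i := by
  ext <;> simp [gami]
  linear_combination (-(39 : ZMod 97) ^ i * a) * c53 i

theorem gam_w_zero (i : ℕ) : gam i 0 * w = gami i := by
  ext <;> simp [gam, gami]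

theorem gam_w (e i C : ℕ) (h : chk e i C) :
    ∃ k : G2, k.b = 0 ∧ k.c = 0 ∧ k.a ^ 16 = 1 ∧
    gam i e * w = un (-((C / 2 ^ (17 * i) % 2 ^ 7 : ℕ) : ZMod 97)) *
      (gam (C / 2 ^ (17 * i + 14) % 2 ^ 3) ((C / 2 ^ (17 * i + 7) % 2 ^ 7 : ℕ) : ZMod 97) * k) := by
  obtain ⟨-, -, h3, h4, h5, h6⟩ := h
  generalize (C / 2 ^ (17 * i + 7) % 2 ^ 7) = e' at *
  generalize (C / 2 ^ (17 * i + 14) % 2 ^ 3) = i' at *
  generalize (C / 2 ^ (17 * i) % 2 ^ 7) = k at *
  generalize hh : (-((5 : ZMod 97) ^ i * e * 39 ^ i')) = x at *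
  have hx : x ≠ 0 := by
    rintro rfl
    simp at h3
  have hxx := mul_inv_cancel₀ hx
  refine ⟨⟨x, 0, 0, x⁻¹, by rw [hxx]; ring⟩, rfl, rfl, h3, ?_⟩
  have h53 := c53 i'
  ext
  · simp only [gam, mul_a, mul_b, mul_c, mul_d, un_a, un_b, un_c, un_d, w_a, w_b, w_c, w_d]
    linear_combination -h4
  · simp only [gam, mul_a, mul_b, mul_c, mul_d, un_a, un_b, un_c, un_d, w_a, w_b, w_c, w_d]
    linear_combination -x⁻¹ * h5
  · simp only [gam, mul_a, mul_b, mul_c, mul_d, un_a, un_b, un_c, un_d, w_a, w_b, w_c, w_d]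
    linear_combination (5 : ZMod 97) ^ i' * hh + ((5 : ZMod 97) ^ i * e) * h53
  · simp only [gam, mul_a, mul_b, mul_c, mul_d, un_a, un_b, un_c, un_d, w_a, w_b, w_c, w_d]
    linear_combination -x⁻¹ * h6 - (5 : ZMod 97) ^ i * hxx

/-! ### The invariant -/

/-- The invariant linking a list and a function. -/
def Good (f : G2 → ℕ) (L : List ℕ) : Prop :=
  ∃ r : ℕ → ℕ → ℕ, L.length = 97 ∧ (∀ e < 97, L.getD e 0 = pk (r e)) ∧
    ∀ e < 97, ∀ i < 6, r e i < NN ∧ (r e i : ZMod NN) = rho f (gam i (e : ZMod 97))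

theorem newrows_cons (Z cs : List ℕ) (C z : ℕ) (t : List ℕ) :
    newrows Z (C :: cs) (z :: t) = pk (ent Z z C) :: newrows Z cs t := rfl

theorem length_newrows (Z cs zs : List ℕ) :
    (newrows Z cs zs).length = min cs.length zs.length := by
  induction cs generalizing zs with
  | nil => simp [newrows]
  | cons C cs ih =>
    cases zs with
    | nil => rfl
    | cons z t =>
      rw [newrows_cons, List.length_cons, ih, List.length_cons, List.length_cons]
      omega

theorem getD_newrows (Z cs zs : List ℕ) (e : ℕ) (h1 : e < cs.length) (h2 : e < zs.length) :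
    (newrows Z cs zs).getD e 0 = pk (ent Z (zs.getD e 0) (cs.getD e 0)) := by
  induction cs generalizing zs e with
  | nil => simp at h1
  | cons C cs ih =>
    cases zs with
    | nil => simp at h2
    | cons z t =>
      rw [newrows_cons]
      cases e with
      | zero => rw [List.getD_cons_zero, List.getD_cons_zero, List.getD_cons_zero]
      | succ e =>
        rw [List.getD_cons_succ, List.getD_cons_succ, List.getD_cons_succ]
        exact ih t e (by simpa using h1) (by simpa using h2)

theorem codes_length : codes.length = 96 := by decide +kernel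

theorem shifts_length : shifts.length = 16 := by decide +kernel

theorem list_sum_le (sh : List ℕ) (F : ℕ → ℕ) (M : ℕ) (h : ∀ k ∈ sh, F k ≤ M) :
    (sh.map F).sum ≤ sh.length * M := by
  induction sh with
  | nil => simp
  | cons k sh ih =>
    rw [List.map_cons, List.sum_cons, List.length_cons, Nat.succ_mul, Nat.add_comm]
    exact Nat.add_le_add (ih fun k hk => h k (List.mem_cons_of_mem _ hk)) (h k List.mem_cons_self)

theorem list_cast_sum (sh : List ℕ) (F : ℕ → ℕ) :
    (((sh.map F).sum : ℕ) : ZMod NN) = (sh.map (fun k => (F k : ZMod NN))).sum := by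
  induction sh with
  | nil => simp
  | cons k sh ih => rw [List.map_cons, List.sum_cons, List.map_cons, List.sum_cons,
      Nat.cast_add, ih]

theorem cast_two_pow (n : ℕ) : ((2 ^ (208 * n) : ℕ) : ZMod NN) = BB ^ n := by
  unfold BB
  rw [← pow_mul, Nat.cast_pow]
  norm_num

theorem cast_neg_aux (x : ℕ) : (((97 - x % 97) % 97 : ℕ) : ZMod 97) = -(x : ZMod 97) := by
  rw [ZMod.natCast_mod, Nat.cast_sub (Nat.mod_lt _ (by norm_num)).le, ZMod.natCast_mod]
  have : ((97 : ℕ) : ZMod 97) = 0 := ZMod.natCast_self 97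
  rw [this, zero_sub]

theorem suml_eq (F : ℕ → ℕ) (l : List ℕ) : suml F l = (l.map F).sum := by
  induction l with
  | nil => rfl
  | cons a l ih =>
    rw [List.map_cons, List.sum_cons, ← ih]
    rfl

theorem infz_eq (i y : ℕ) : infz i y = (shifts.map (rotz i y)).sum % NN := by
  rw [infz, suml_eq]

theorem infz_cast (i y : ℕ) : (infz i y : ZMod NN) =
    ∑ a ∈ Hs, BB ^ (-(39 ^ i * 39 ^ i * a : ZMod 97)).val * (y : ZMod NN) := by
  rw [infz_eq, ZMod.natCast_mod, list_cast_sum, ← sum_shifts]
  congr 1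
  refine List.map_congr_left fun a _ => ?_
  rw [rotz, Nat.cast_mul, cast_two_pow, mul_comm]
  congr 1
  apply BB_pow_val
  rw [cast_neg_aux]
  push_cast
  ring

theorem infz_lt (i y : ℕ) : infz i y < NN := by
  rw [infz_eq]; exact Nat.mod_lt _ NN_pos

theorem NN_lt : NN < 2 ^ 20384 := by
  have h := NN_succ
  have h2 : 2 ^ 20176 ≤ 2 ^ 20384 := Nat.pow_le_pow_right (by norm_num) (by norm_num)
  omega

theorem NN_16 : 16 * NN < 2 ^ 20384 := by
  have h := NN_succ
  have h2 : 2 ^ 20176 * 2 ^ 4 ≤ 2 ^ 20384 := by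
    rw [← pow_add]; exact Nat.pow_le_pow_right (by norm_num) (by norm_num)
  omega

theorem good_step {f : G2 → ℕ} (hT : TInv f) (hW : WInv f) {L : List ℕ} (h : Good f L) :
    Good (AA f) (step L) := by
  obtain ⟨r, hlen, hpk, hr⟩ := h
  obtain ⟨hZlen, hZ⟩ := convs_spec L hlen shifts shifts_lt
  change (conv L).length = 97 at hZlen
  change ∀ e < 97, (conv L).getD e 0 = _ at hZ
  set Z := conv L with hZdef
  let R : ℕ → ℕ → ℕ := fun e i => (shifts.map (fun k => r ((e + k) % 97) i)).sum
  have hmod : ∀ x, x % 97 < 97 := fun x => Nat.mod_lt _ (by norm_num)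
  have hZpk : ∀ e < 97, Z.getD e 0 = pk (R e) := by
    intro e he
    rw [hZ e he]
    have : (shifts.map (fun k => L.getD ((e + k) % 97) 0)) =
        (shifts.map (fun k => pk (r ((e + k) % 97)))) :=
      List.map_congr_left fun k _ => hpk _ (hmod _)
    rw [this, pk_sum]
  have hRlt : ∀ e, ∀ i < 6, R e i < 2 ^ 20384 := by
    intro e i hi
    refine lt_of_le_of_lt (list_sum_le shifts _ NN fun k _ => ((hr _ (hmod _) i hi).1).le) ?_
    rw [shifts_length]; exact NN_16
  have hdg : ∀ e < 97, ∀ i < 6, dg (Z.getD e 0) i = R e i := by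
    intro e he i hi
    rw [hZpk e he, dg_pk _ (hRlt e) i hi]
  have hRc : ∀ e < 97, ∀ i < 6, (R e i : ZMod NN) = rho (Ap f) (gam i (e : ZMod 97)) := by
    intro e he i hi
    rw [rho_Ap]
    show (((shifts.map (fun k => r ((e + k) % 97) i)).sum : ℕ) : ZMod NN) = _
    rw [list_cast_sum, ← sum_shifts]
    congr 1
    refine List.map_congr_left fun k _ => ?_
    rw [(hr _ (hmod _) i hi).2, gam_un]
    congr 2
    rw [ZMod.natCast_mod, Nat.cast_add]
  have hdL : ∀ i < 6, dg (hd L) i = r 0 i := by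
    intro i hi
    rw [hd_eq, hpk 0 (by norm_num), dg_pk _ (fun j hj => lt_trans (hr 0 (by norm_num) j hj).1 NN_lt) i hi]
  have hdZ : ∀ i < 6, dg (hd Z) i = R 0 i := by
    intro i hi
    rw [hd_eq, hdg 0 (by norm_num) i hi]
  have htl : (tl Z).length = 96 := by rw [tl_eq, List.length_tail, hZlen]
  have htl' : ∀ e, (tl Z).getD e 0 = Z.getD (e + 1) 0 := by
    intro e
    rw [tl_eq, List.getD_eq_getElem?_getD, List.getD_eq_getElem?_getD, List.getElem?_tail]
  have hstep : step L = pk (ent0 L Z) :: newrows Z codes (tl Z) := by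
    rw [step, stepZ]
  refine ⟨fun e i => if e = 0 then ent0 L Z i else
    ent Z (Z.getD e 0) (codes.getD (e - 1) 0) i, ?_, ?_, ?_⟩
  · rw [hstep, List.length_cons, length_newrows, codes_length, htl]
    norm_num
  · intro e he
    rw [hstep]
    cases e with
    | zero =>
      rw [List.getD_cons_zero]
      congr 1
    | succ e =>
      rw [List.getD_cons_succ, getD_newrows _ _ _ _ (by rw [codes_length]; omega)
        (by rw [htl]; omega), htl']
      congr 1
  · intro e he i hi
    by_cases he0 : e = 0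
    · subst he0
      beta_reduce
      refine ⟨by rw [if_pos rfl, ent0]; exact Nat.mod_lt _ NN_pos, ?_⟩
      rw [if_pos rfl, ent0, ZMod.natCast_mod, Nat.cast_add, hdZ i hi, hRc 0 (by norm_num) i hi,
        hdL i hi, infz_cast, rho_AA]
      congr 1
      rw [Nat.cast_zero, gam_w_zero, rho_Ap]
      refine Finset.sum_congr rfl fun a _ => ?_
      rw [gami_un, rho_un, ← gam_w_zero, rho_w hW, (hr 0 (by norm_num) i hi).2, Nat.cast_zero]
    · beta_reduce
      refine ⟨by rw [if_neg he0, ent]; exact Nat.mod_lt _ NN_pos, ?_⟩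
      rw [if_neg he0]
      have hck := chk_all (e - 1) (by omega) i hi
      have he1 : e - 1 + 1 = e := by omega
      rw [he1] at hck
      have hlt1 := hck.1
      have hlt2 := hck.2.1
      obtain ⟨k, hkb, hkc, hka, hk⟩ := gam_w e i _ hck
      rw [rho_AA, hk, rho_un, rho_diag (Ap_TInv hT) _ _ hkb hkc hka, neg_neg]
      unfold ent
      rw [ZMod.natCast_mod, Nat.cast_add, hdg e he i hi, hRc e he i hi, nth_eq,
        hdg _ hlt1 _ hlt2, Nat.cast_mul, hRc _ hlt1 _ hlt2, cast_two_pow, mul_comm]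
      congr 2
      apply BB_pow_val
      rfl

/-! ### Closed walks -/

/-- Membership in the edge stabiliser. -/
def kk (g : G2) : Prop := (g.b = 0 ∧ g.c = 0 ∧ g.a ^ 16 = 1) ∨ (g.a = 0 ∧ g.d = 0 ∧ g.b ^ 16 = 1)

instance : DecidablePred kk := fun g => by unfold kk; infer_instance

/-- Numbers of walks from the base edge. -/
def yy : ℕ → G2 → ℕ
  | 0 => fun g => if kk g then 1 else 0
  | j + 1 => AA (yy j)

theorem kk_T (g : G2) : kk (g * T) ↔ kk g := by
  have h85 : (85 : ZMod 97) ≠ 0 := by decide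
  have h8 : (8 : ZMod 97) ≠ 0 := by decide
  have e8 : (8 : ZMod 97) ^ 16 = 1 := by decide +kernel
  have e85 : (85 : ZMod 97) ^ 16 = 1 := by decide +kernel
  unfold kk
  simp [mul_pow, e8, e85, h8, h85]

theorem kk_w (g : G2) : kk (g * w) ↔ kk g := by
  have h16 : Even 16 := by decide
  unfold kk
  simp [h16.neg_pow]
  tauto

theorem yy_TInv (j : ℕ) : TInv (yy j) := by
  induction j with
  | zero => intro g; simp only [yy, kk_T]
  | succ j ih => exact AA_TInv ih

theorem yy_WInv (j : ℕ) : WInv (yy j) := by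
  cases j with
  | zero => intro g; simp only [yy, kk_w]
  | succ j => exact AA_WInv (yy_TInv j)

theorem yy_le (j : ℕ) (g : G2) : yy j g ≤ 32 ^ j := by
  induction j generalizing g with
  | zero => simp only [yy]; split_ifs <;> simp
  | succ j ih =>
    have h : ∀ g, Ap (yy j) g ≤ 16 * 32 ^ j := by
      intro g
      unfold Ap
      calc ∑ a ∈ Hs, yy j (g * un a) ≤ ∑ a ∈ Hs, 32 ^ j := Finset.sum_le_sum fun a _ => ih _
        _ = 16 * 32 ^ j := by rw [Finset.sum_const, card_Hs, smul_eq_mul]
    show Ap (yy j) g + Ap (yy j) (g * w) ≤ _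
    have h1 := h g
    have h2 := h (g * w)
    rw [pow_succ]
    omega

theorem L0_spec (e : ℕ) (he : e < 97) :
    L0.getD e 0 = pk (fun i => if e = 0 ∧ i = 0 then 1 else 0) := by
  cases e with
  | zero =>
    rw [L0, List.getD_cons_zero]
    simp [pk]
  | succ e =>
    rw [L0, List.getD_cons_succ, List.getD_eq_getElem?_getD, List.getElem?_replicate,
      if_pos (by omega)]
    simp [pk]

theorem pow39_ne : ∀ i < 6, i ≠ 0 → (39 : ZMod 97) ^ (i * 16) ≠ 1 := by decide +kernel

theorem good_zero : Good (yy 0) L0 := by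
  refine ⟨fun e i => if e = 0 ∧ i = 0 then 1 else 0, by simp [L0], L0_spec, ?_⟩
  intro e he i hi
  beta_reduce
  constructor
  · have h1 : 1 < NN := by
      have h := NN_succ
      have h2 : 2 ^ 2 ≤ 2 ^ 20176 := Nat.pow_le_pow_right (by norm_num) (by norm_num)
      omega
    split_ifs
    · exact h1
    · exact NN_pos
  · unfold rho
    have h16 : Even 16 := by decide
    have hterm : ∀ s : ZMod 97, yy 0 (un s * gam i e) =
        if s = 0 then (if e = 0 ∧ i = 0 then 1 else 0) else 0 := by
      intro s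
      have h5 : (5 : ZMod 97) ≠ 0 := by decide
      have he' : (e : ZMod 97) = 0 ↔ e = 0 := by
        rw [ZMod.natCast_eq_zero_iff]
        constructor
        · intro h; exact Nat.eq_zero_of_dvd_of_lt h he
        · rintro rfl; exact dvd_zero _
      have h39 : ((39 : ZMod 97) ^ i) ^ 16 = 1 ↔ i = 0 := by
        rw [← pow_mul]
        constructor
        · intro h; by_contra h0; exact pow39_ne i hi h0 h
        · rintro rfl; simp
      have hk : kk (un s * gam i e) ↔ s = 0 ∧ (e = 0 ∧ i = 0) := by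
        unfold kk
        simp only [gam, mul_a, mul_b, mul_c, mul_d, un_a, un_b, un_c, un_d, zero_mul, mul_zero,
          one_mul, zero_add, mul_one]
        constructor
        · rintro (⟨-, h, -⟩ | ⟨h1, h2, h3⟩)
          · exact absurd h (pow_ne_zero _ h5)
          · have hs : s = 0 := by
              rcases mul_eq_zero.1 h1 with h | h
              · exact h
              · exact absurd h (pow_ne_zero _ h5)
            have he0 : e = 0 := by
              rcases mul_eq_zero.1 h2 with h | h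
              · exact absurd h (pow_ne_zero _ h5)
              · exact he'.1 h
            refine ⟨hs, he0, ?_⟩
            rw [hs, zero_mul, add_zero, h16.neg_pow] at h3
            exact h39.1 h3
        · rintro ⟨h1, h2, h3⟩
          right
          refine ⟨by rw [h1, zero_mul], by rw [he'.2 h2, mul_zero], ?_⟩
          rw [h1, zero_mul, add_zero, h16.neg_pow]
          exact h39.2 h3
      simp only [yy, hk]
      by_cases h1 : s = 0 <;> simp [h1]
    simp only [hterm]
    rw [Finset.sum_eq_single 0]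
    · simp
    · intro s _ hs; simp [hs]
    · intro h; exact absurd (Finset.mem_univ _) h

theorem good_iter (j : ℕ) : Good (yy j) (step^[j] L0) := by
  induction j with
  | zero => exact good_zero
  | succ j ih =>
    rw [Function.iterate_succ_apply']
    exact good_step (yy_TInv j) (yy_WInv j) ih

theorem mlist_getD (n : ℕ) (L : List ℕ) (j : ℕ) (hj : j < n) :
    (mlist n L).getD j 0 = hd (step^[j] L) % 2 ^ 208 := by
  induction n generalizing L j with
  | zero => omega
  | succ n ih =>
    have h : mlist (n + 1) L = (hd L % 2 ^ 208) :: mlist n (step L) := rfl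
    rw [h]
    cases j with
    | zero => rw [List.getD_cons_zero]; rfl
    | succ j =>
      rw [List.getD_cons_succ, ih _ _ (by omega), Function.iterate_succ_apply]

theorem geom_aux (B n : ℕ) : (B - 1) * ∑ i ∈ Finset.range n, B ^ i = B ^ n - 1 := by
  rcases Nat.eq_zero_or_pos B with h | h
  · subst h
    cases n <;> simp
  · zify [Nat.one_le_pow n B h, h]
    have := geom_sum_mul (B : ℤ) n
    rw [mul_comm]; exact this

theorem extract {f : G2 → ℕ} (hW : WInv f) {L : List ℕ} (h : Good f L)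
    (hb : ∀ g, f g ≤ 2 ^ 205) : hd L % 2 ^ 208 = f 1 := by
  obtain ⟨r, hlen, hpk, hr⟩ := h
  have h0 := hr 0 (by norm_num) 0 (by norm_num)
  have hg : gam 0 0 * w = 1 := by
    rw [gam_w_zero]; rfl
  rw [Nat.cast_zero, ← rho_w hW, hg] at h0
  set S : ℕ := ∑ s : ZMod 97, f (un s) * 2 ^ (208 * s.val) with hS
  have hS1 : rho f 1 = (S : ZMod NN) := by
    rw [hS, Nat.cast_sum]
    unfold rho
    refine Finset.sum_congr rfl fun s _ => ?_
    rw [Nat.cast_mul, cast_two_pow, mul_one]
  have hS2 : S < NN := by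
    have h1 : S ≤ 2 ^ 205 * ∑ i ∈ Finset.range 97, (2 ^ 208) ^ i := by
      rw [hS, Finset.mul_sum]
      have h2 : ∑ i ∈ Finset.range 97, 2 ^ 205 * (2 ^ 208) ^ i =
          ∑ s : ZMod 97, 2 ^ 205 * (2 ^ 208) ^ s.val :=
        (Fin.sum_univ_eq_sum_range (fun i => 2 ^ 205 * (2 ^ 208) ^ i) 97).symm
      rw [h2]
      refine Finset.sum_le_sum fun s _ => ?_
      rw [pow_mul]
      exact Nat.mul_le_mul_right _ (hb _)
    have h2 := geom_aux (2 ^ 208) 97
    have h3 : (2 ^ 208) ^ 97 - 1 = NN := by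
      rw [← pow_mul]
      have := NN_succ
      omega
    rw [h3] at h2
    rw [← h2]
    refine lt_of_le_of_lt h1 ?_
    refine Nat.mul_lt_mul_of_pos_right (by norm_num) ?_
    exact Finset.sum_pos (fun i _ => by positivity) ⟨0, by simp⟩
  have hrS : r 0 0 = S := by
    have h4 : (r 0 0 : ZMod NN) = (S : ZMod NN) := by rw [h0.2, hS1]
    rw [ZMod.natCast_eq_natCast_iff'] at h4
    rwa [Nat.mod_eq_of_lt h0.1, Nat.mod_eq_of_lt hS2] at h4
  have hmod1 : hd L % 2 ^ 208 = r 0 0 % 2 ^ 208 := by
    rw [hd_eq, hpk 0 (by norm_num)]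
    unfold pk
    have hQ : 2 ^ 20384 = 2 ^ 208 * 2 ^ 20176 := by rw [← pow_add]
    generalize r 0 1 + 2 ^ 20384 * (r 0 2 + 2 ^ 20384 * (r 0 3 + 2 ^ 20384 *
      (r 0 4 + 2 ^ 20384 * r 0 5))) = X
    rw [hQ, mul_assoc, Nat.add_mul_mod_self_left]
  have hmod2 : S % 2 ^ 208 = f 1 % 2 ^ 208 := by
    rw [hS, ← Finset.add_sum_erase _ _ (Finset.mem_univ (0 : ZMod 97))]
    have h5 : 2 ^ 208 ∣ ∑ s ∈ Finset.univ.erase (0 : ZMod 97), f (un s) * 2 ^ (208 * s.val) := by
      refine Finset.dvd_sum fun s hs => ?_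
      have hs0 : s ≠ 0 := Finset.ne_of_mem_erase hs
      have hv : 0 < s.val := by
        rw [Nat.pos_iff_ne_zero]
        intro h
        exact hs0 ((ZMod.val_eq_zero s).1 h)
      refine Dvd.dvd.mul_left (pow_dvd_pow 2 ?_) _
      omega
    obtain ⟨X, hX⟩ := h5
    rw [hX, Nat.add_mul_mod_self_left, ZMod.val_zero, Nat.mul_zero, pow_zero, mul_one, un_zero]
  rw [hmod1, hrS, hmod2, Nat.mod_eq_of_lt]
  exact lt_of_le_of_lt (hb 1) (by norm_num)

/-- The numbers of closed walks. -/
theorem yy_one (j : ℕ) (hj : j < 41) : yy j 1 = moms.getD j 0 := by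
  rw [← mlist_eq, mlist_getD 41 L0 j hj]
  refine (extract (yy_WInv j) (good_iter j) fun g => ?_).symm
  refine (yy_le j g).trans ?_
  have h1 : (32 : ℕ) ^ j = 2 ^ (5 * j) := by rw [pow_mul]; norm_num
  rw [h1]
  exact Nat.pow_le_pow_right (by norm_num) (by omega)

end Pool.Agent.Folk588
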