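import Pool.Agent.Folk588.Trace

noncomputable section

namespace Pool.Agent.Folk588

open G2

/-! ### Existence of a small eigenvalue -/

/-- The Euclidean space of functions. -/
abbrev EE := EuclideanSpace ℝ G2

/-- The operator on the Euclidean space. -/
def Aop : EE →ₗ[ℝ] EE where
  toFun f := WithLp.toLp 2 (AA f.ofLp)
  map_add' f h := by
    ext g
    show AA (f + h).ofLp g = AA f.ofLp g + AA h.ofLp g
    unfold AA Ap
    simp only [WithLp.ofLp_add, Pi.add_apply, Finset.sum_add_distrib]
    ring
  map_smul' c f := by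
    ext g
    show AA (c • f).ofLp g = c * AA f.ofLp g
    unfold AA Ap
    simp only [WithLp.ofLp_smul, Pi.smul_apply, smul_eq_mul, ← Finset.mul_sum]
    ring

/-- The subspace of invariant functions. -/
def VK : Submodule ℝ EE where
  carrier := {f | TInv f.ofLp ∧ WInv f.ofLp}
  add_mem' := by
    rintro f h ⟨h1, h2⟩ ⟨h3, h4⟩
    refine ⟨fun g => ?_, fun g => ?_⟩
    · show f.ofLp (g * T) + h.ofLp (g * T) = f.ofLp g + h.ofLp g
      rw [h1, h3]
    · show f.ofLp (g * w) + h.ofLp (g * w) = f.ofLp g + h.ofLp g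
      rw [h2, h4]
  zero_mem' := ⟨fun g => rfl, fun g => rfl⟩
  smul_mem' := by
    rintro c f ⟨h1, h2⟩
    refine ⟨fun g => ?_, fun g => ?_⟩
    · show c * f.ofLp (g * T) = c * f.ofLp g
      rw [h1]
    · show c * f.ofLp (g * w) = c * f.ofLp g
      rw [h2]

theorem Aop_mem (f : EE) (hf : f ∈ VK) : Aop f ∈ VK :=
  ⟨AA_TInv hf.1, AA_WInv hf.1⟩

theorem Aop_symm : (Aop.restrict Aop_mem).IsSymmetric := by
  intro x y
  rw [Submodule.coe_inner, Submodule.coe_inner, PiLp.inner_apply, PiLp.inner_apply]
  have h := AA_adj x.2.2 y.2.2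
  simp only [RCLike.inner_apply, conj_trivial]
  calc ∑ g, (y : EE).ofLp g * AA (x : EE).ofLp g = ∑ g, AA (x : EE).ofLp g * (y : EE).ofLp g :=
        Finset.sum_congr rfl fun g _ => mul_comm _ _
    _ = ∑ g, (x : EE).ofLp g * AA (y : EE).ofLp g := h
    _ = ∑ g, AA (y : EE).ofLp g * (x : EE).ofLp g :=
        Finset.sum_congr rfl fun g _ => mul_comm _ _

theorem eigen_exists {f : G2 → ℝ} (hT : TInv f) (hW : WInv f) (hne : ∃ g, f g ≠ 0) (c : ℝ)
    (hf : ∑ g, AA f g * f g ≤ c * ∑ g, f g ^ 2) :
    ∃ lam : ℝ, lam ≤ c ∧ ∃ v : G2 → ℂ, TInv v ∧ WInv v ∧ (∀ g, AA v g = lam * v g) ∧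
      ∃ g, v g ≠ 0 := by
  classical
  set x : VK := ⟨WithLp.toLp 2 f, hT, hW⟩ with hx
  set Tr := Aop.restrict Aop_mem with hTr
  have hS : Tr.IsSymmetric := Aop_symm
  set b := hS.eigenvectorBasis rfl with hb
  have h1 : inner ℝ (Tr x) x = ∑ i, hS.eigenvalues rfl i * (b.repr x).ofLp i ^ 2 := by
    rw [← b.repr.inner_map_map, PiLp.inner_apply]
    refine Finset.sum_congr rfl fun i _ => ?_
    rw [hb, hS.eigenvectorBasis_apply_self_apply]
    simp only [RCLike.inner_apply, conj_trivial, RCLike.ofReal_real_eq_id, id]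
    ring
  have h2 : inner ℝ x x = ∑ i, (b.repr x).ofLp i ^ 2 := by
    rw [← b.repr.inner_map_map, PiLp.inner_apply]
    refine Finset.sum_congr rfl fun i _ => ?_
    simp only [RCLike.inner_apply, conj_trivial]
    ring
  have h3 : inner ℝ (Tr x) x = ∑ g, AA f g * f g := by
    rw [Submodule.coe_inner, PiLp.inner_apply]
    refine Finset.sum_congr rfl fun g _ => ?_
    simp only [RCLike.inner_apply, conj_trivial]
    show f g * AA f g = _
    ring
  have h4 : inner ℝ x x = ∑ g, f g ^ 2 := by
    rw [Submodule.coe_inner, PiLp.inner_apply]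
    refine Finset.sum_congr rfl fun g _ => ?_
    simp only [RCLike.inner_apply, conj_trivial]
    show f g * f g = _
    ring
  rw [← h3, ← h4, h1, h2] at hf
  have hpos : 0 < ∑ i, (b.repr x).ofLp i ^ 2 := by
    rw [← h2, h4]
    obtain ⟨g, hg⟩ := hne
    refine Finset.sum_pos' (fun g _ => by positivity) ⟨g, Finset.mem_univ _, by positivity⟩
  obtain ⟨i, hi⟩ : ∃ i, hS.eigenvalues rfl i ≤ c := by
    by_contra hcon
    push Not at hcon
    rw [Finset.mul_sum] at hf
    obtain ⟨i, -, hi⟩ := Finset.exists_lt_of_sum_lt (s := Finset.univ)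
      (f := fun _ => (0 : ℝ)) (g := fun i => (b.repr x).ofLp i ^ 2) (by simpa using hpos)
    have : ∑ i, c * (b.repr x).ofLp i ^ 2 < ∑ i, hS.eigenvalues rfl i * (b.repr x).ofLp i ^ 2 := by
      refine Finset.sum_lt_sum (fun i _ => mul_le_mul_of_nonneg_right (hcon i).le (sq_nonneg _))
        ⟨i, Finset.mem_univ _, mul_lt_mul_of_pos_right (hcon i) hi⟩
    exact absurd hf (not_le.2 this)
  refine ⟨hS.eigenvalues rfl i, hi, fun g => (((b i : VK) : EE).ofLp g : ℂ), ?_, ?_, ?_, ?_⟩
  · intro g
    show (((b i : VK) : EE).ofLp (g * T) : ℂ) = _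
    rw [(b i).2.1]
  · intro g
    show (((b i : VK) : EE).ofLp (g * w) : ℂ) = _
    rw [(b i).2.2]
  · intro g
    have h5 : Tr (b i) = hS.eigenvalues rfl i • b i := hS.apply_eigenvectorBasis rfl i
    have h6 : AA ((b i : VK) : EE).ofLp g = hS.eigenvalues rfl i * ((b i : VK) : EE).ofLp g := by
      have h7 := congrArg (fun z : VK => (z : EE).ofLp g) h5
      exact h7
    have h8 : AA (fun g => (((b i : VK) : EE).ofLp g : ℂ)) g =
        ((AA ((b i : VK) : EE).ofLp g : ℝ) : ℂ) := by
      unfold AA Ap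
      push_cast
      rfl
    rw [h8, h6]
    push_cast
    rfl
  · by_contra hcon
    push Not at hcon
    have h9 : b i = 0 := by
      ext g
      have := hcon g
      show ((b i : VK) : EE).ofLp g = 0
      exact_mod_cast this
    exact b.orthonormal.ne_zero i h9

/-! ### The certificate -/

/-- Coefficients of the certificate polynomial. -/
def rr : List ℤ := [687000546709860675742221741214005447691,
  -571891057869998949903088049162834936967,
  -986587588562914231829593527264705442791,
  278126513474179400916292015609441309173,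
  203073017403543565693380918827559375708,
  -40400244990929824536761008062907552983,
  -15192772146122096833824207220478565147,
  2589010571286753407338993461686708325,
  524114666890597523846209968866562120,
  -86263313705412542964427143261256677,
  -8696829608924974721791111899664497,
  1604413594187768579778780992469936,
  55925038210395858624225431695755,
  -16591909559973537066581465341362,
  169489736239237032653848370223,
  84151291401042013573087249053,
  -3838355851265697460971074913,
  -110128873462915800829692186,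
  12869343619912196560816803,
  -361690124320910285296794,
  3486784401000000000000]

theorem rr_check : 912673 * (∑ k ∈ Finset.range 21, ∑ l ∈ Finset.range 21,
    rr.getD k 0 * rr.getD l 0 * (moms.getD (k + l) 0 : ℤ)) <
    1536 * (66000036385647544268640431309476680701355 : ℤ) ^ 2 := by decide +kernel

theorem rr_poly (x : ℝ) : ∑ k ∈ Finset.range 21, (rr.getD k 0 : ℝ) * x ^ k =
    66000036385647544268640431309476680701355 + 198038609512756635661913154397191995415661 * (-32 -
      3 * x) ^ 1 + 167969898204482491723209970197870441889265 * (-32 - 3 * x) ^ 2 +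
      68904230091183568502894287400129954553553 * (-32 - 3 * x) ^ 3 +
      16644103488733732215392018708114244961980 * (-32 - 3 * x) ^ 4 +
      2625041619052023995815597783034550041421 * (-32 - 3 * x) ^ 5 +
      288019134826316543856113784852537220557 * (-32 - 3 * x) ^ 6 +
      22931509453045097662452680817775769393 * (-32 - 3 * x) ^ 7 +
      1364032506066398486633275314790306088 * (-32 - 3 * x) ^ 8 +
      61859487987951947602815623086279511 * (-32 - 3 * x) ^ 9 +
      2168387036185306718087252083040631 * (-32 - 3 * x) ^ 10 +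
      59248252409005478428889873331312 * (-32 - 3 * x) ^ 11 + 1266614901997737059541928867579 *
      (-32 - 3 * x) ^ 12 + 21167247678582785482518470278 * (-32 - 3 * x) ^ 13 +
      274887815681735839475111879 * (-32 - 3 * x) ^ 14 + 2740462785607688193133801 * (-32 - 3 *
      x) ^ 15 + 20540561308989891980703 * (-32 - 3 * x) ^ 16 + 111833402665160396702 * (-32 - 3
      * x) ^ 17 + 416984672749518283 * (-32 - 3 * x) ^ 18 + 951195143769582 * (-32 - 3 * x) ^
      19 + 1000000000000 * (-32 - 3 * x) ^ 20 := by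
  simp only [rr, Finset.sum_range_succ, Finset.sum_range_zero, List.getD_cons_zero,
    List.getD_cons_succ]
  push_cast
  ring

theorem rr_lower (x : ℝ) (hx : x ≤ -(32 / 3)) :
    (66000036385647544268640431309476680701355 : ℝ) ≤ ∑ k ∈ Finset.range 21, (rr.getD k 0 : ℝ) * x ^ k := by
  rw [rr_poly]
  have hb : 0 ≤ -32 - 3 * x := by linarith
  generalize -32 - 3 * x = y at *
  have hy : ∀ n : ℕ, 0 ≤ y ^ n := fun n => pow_nonneg hb n
  linarith [hy 1, hy 2, hy 3, hy 4, hy 5, hy 6, hy 7, hy 8, hy 9, hy 10, hy 11, hy 12, hy 13, hy 14, hy 15, hy 16, hy 17, hy 18, hy 19, hy 20]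

theorem no_small {f : G2 → ℝ} (hT : TInv f) (hW : WInv f) (hne : ∃ g, f g ≠ 0)
    (hf : ∑ g, AA f g * f g ≤ -(32 / 3) * ∑ g, f g ^ 2) : False := by
  obtain ⟨lam, hlam, v, hvT, hvW, hv, hvne⟩ := eigen_exists hT hW hne _ hf
  have h1 := trace_bound hvT hvW lam hv hvne (by linarith) (fun k => (rr.getD k 0 : ℝ)) 21
  have h2 := rr_lower lam hlam
  have h3 : ∑ k ∈ Finset.range 21, ∑ l ∈ Finset.range 21,
      (rr.getD k 0 : ℝ) * (rr.getD l 0 : ℝ) * (yy (k + l) 1 : ℝ) =
      ((∑ k ∈ Finset.range 21, ∑ l ∈ Finset.range 21,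
        rr.getD k 0 * rr.getD l 0 * (moms.getD (k + l) 0 : ℤ) : ℤ) : ℝ) := by
    push_cast
    refine Finset.sum_congr rfl fun k hk => Finset.sum_congr rfl fun l hl => ?_
    rw [Finset.mem_range] at hk hl
    rw [yy_one (k + l) (by omega)]
  have h4 : (912673 : ℝ) * ((∑ k ∈ Finset.range 21, ∑ l ∈ Finset.range 21,
      rr.getD k 0 * rr.getD l 0 * (moms.getD (k + l) 0 : ℤ) : ℤ) : ℝ) <
      1536 * (66000036385647544268640431309476680701355 : ℝ) ^ 2 := by
    have := rr_check
    exact_mod_cast this
  beta_reduce at h1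
  rw [h3] at h1
  have h5 : (66000036385647544268640431309476680701355 : ℝ) ^ 2 ≤ (∑ k ∈ Finset.range 21, (rr.getD k 0 : ℝ) * lam ^ k) ^ 2 :=
    pow_le_pow_left₀ (by norm_num) h2 2
  linarith

end Pool.Agent.Folk588
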