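import Pool.Agent.Folk588.Moments

noncomputable section

namespace Pool.Agent.Folk588

open G2

set_option linter.unusedSimpArgs false

/-! ### Sums over the group -/

theorem sum_mul_right {M : Type*} [AddCommMonoid M] (F : G2 → M) (x : G2) :
    ∑ g, F (g * x) = ∑ g, F g := Equiv.sum_comp (Equiv.mulRight x) F

theorem sum_mul_left {M : Type*} [AddCommMonoid M] (F : G2 → M) (x : G2) :
    ∑ g, F (x * g) = ∑ g, F g := Equiv.sum_comp (Equiv.mulLeft x) F

theorem Ap_adj {R : Type*} [CommSemiring R] (u v : G2 → R) :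
    ∑ g, Ap u g * v g = ∑ g, u g * Ap v g := by
  unfold Ap
  simp only [Finset.sum_mul, Finset.mul_sum]
  rw [Finset.sum_comm]
  conv_rhs => rw [Finset.sum_comm, ← sum_Hs_neg (fun a => ∑ g, u g * v (g * un a))]
  refine Finset.sum_congr rfl fun a _ => ?_
  rw [← sum_mul_right (fun g => u g * v (g * un (-a))) (un a)]
  refine Finset.sum_congr rfl fun g _ => ?_
  rw [mul_assoc g, ← un_add, add_neg_cancel, un_zero, mul_one]

theorem AA_adj {R : Type*} [CommSemiring R] {u v : G2 → R} (hu : WInv u) (hv : WInv v) :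
    ∑ g, AA u g * v g = ∑ g, u g * AA v g := by
  unfold AA
  simp only [add_mul, mul_add, Finset.sum_add_distrib]
  have h1 : ∑ g, Ap u (g * w) * v g = ∑ g, Ap u g * v g := by
    rw [← sum_mul_right (fun g => Ap u g * v g) w]
    refine Finset.sum_congr rfl fun g _ => ?_
    rw [hv]
  have h2 : ∑ g, u g * Ap v (g * w) = ∑ g, u g * Ap v g := by
    rw [← sum_mul_right (fun g => u g * Ap v g) w]
    refine Finset.sum_congr rfl fun g _ => ?_
    rw [hu]
  rw [h1, h2, Ap_adj]

/-- The diagonal elements. -/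
def tb (b : ZMod 97) (hb : b ≠ 0) : G2 := ⟨b, 0, 0, b⁻¹, by rw [mul_inv_cancel₀ hb]; ring⟩

/-- The diagonal part of the edge stabiliser. -/
def c1 (g : G2) : Prop := g.b = 0 ∧ g.c = 0 ∧ g.a ^ 16 = 1

instance : DecidablePred c1 := fun g => by unfold c1; infer_instance

theorem card_c1 : (Finset.univ.filter c1).card = 16 := by
  rw [← card_Hs]
  symm
  refine Finset.card_bij (fun a ha => tb a (ne_zero_of_mem ha)) ?_ ?_ ?_
  · intro a ha
    rw [Finset.mem_filter]
    exact ⟨Finset.mem_univ _, rfl, rfl, mem_Hs.1 ha⟩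
  · intro a ha b hb h
    exact congrArg G2.a h
  · intro g hg
    rw [Finset.mem_filter] at hg
    obtain ⟨-, hb, hc, ha⟩ := hg
    refine ⟨g.a, mem_Hs.2 ha, ?_⟩
    have ha0 := ne_zero_of_mem (mem_Hs.2 ha)
    have hh := g.h
    rw [hb, zero_mul, sub_zero] at hh
    ext
    · rfl
    · exact hb.symm
    · exact hc.symm
    · show g.a⁻¹ = g.d
      exact (eq_inv_of_mul_eq_one_right hh).symm

theorem sum_c1 {R : Type*} [CommSemiring R] {u : G2 → R} (hT : TInv u) :
    ∑ g, (if c1 g then u g else 0) = 16 * u 1 := by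
  rw [← Finset.sum_filter]
  have h : ∀ g ∈ Finset.univ.filter c1, u g = u 1 := by
    intro g hg
    rw [Finset.mem_filter] at hg
    have := hT.diag 1 g hg.2.1 hg.2.2.1 hg.2.2.2
    rwa [one_mul] at this
  rw [Finset.sum_congr rfl h, Finset.sum_const, card_c1]
  simp

theorem kk_iff (g : G2) : kk g ↔ c1 g ∨ c1 (g * w) := by
  have h16 : Even 16 := by decide
  unfold kk c1
  simp only [mul_a, mul_b, mul_c, mul_d, w_a, w_b, w_c, w_d]
  constructor
  · rintro (h | ⟨h1, h2, h3⟩)
    · exact Or.inl h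
    · right
      refine ⟨by rw [h1]; ring, by rw [h2]; ring, ?_⟩
      rw [mul_zero, zero_add, mul_neg, mul_one, h16.neg_pow, h3]
  · rintro (h | ⟨h1, h2, h3⟩)
    · exact Or.inl h
    · right
      refine ⟨by simpa using h1, by simpa using h2, ?_⟩
      rw [mul_zero, zero_add, mul_neg, mul_one, h16.neg_pow] at h3
      exact h3

theorem not_both (g : G2) : ¬ (c1 g ∧ c1 (g * w)) := by
  rintro ⟨⟨h1, -, h3⟩, ⟨h4, -, -⟩⟩
  simp only [mul_a, mul_b, mul_c, mul_d, w_a, w_b, w_c, w_d] at h4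
  have : g.a = 0 := by simpa using h4
  rw [this] at h3
  simp at h3

theorem sum_kk {R : Type*} [CommSemiring R] {u : G2 → R} (hT : TInv u) (hW : WInv u) :
    ∑ g, u g * ((yy 0 g : ℕ) : R) = 32 * u 1 := by
  have h1 : ∀ g, u g * ((yy 0 g : ℕ) : R) =
      (if c1 g then u g else 0) + (if c1 (g * w) then u (g * w) else 0) := by
    intro g
    rw [hW]
    have h2 := not_both g
    simp only [yy, kk_iff]
    by_cases ha : c1 g <;> by_cases hb : c1 (g * w)
    · exact absurd ⟨ha, hb⟩ h2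
    · simp [ha, hb]
    · simp [ha, hb]
    · simp [ha, hb]
  rw [Finset.sum_congr rfl fun g _ => h1 g, Finset.sum_add_distrib,
    sum_mul_right (fun g => if c1 g then u g else 0) w, sum_c1 hT]
  ring

theorem AA_left {R : Type*} [AddCommMonoid R] (v : G2 → R) (x g : G2) :
    AA (fun g => v (x * g)) g = AA v (x * g) := by
  unfold AA Ap
  simp only [mul_assoc]

theorem TInv_left {X : Type*} {v : G2 → X} (h : TInv v) (x : G2) : TInv (fun g => v (x * g)) := by
  intro g
  show v (x * (g * T)) = _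
  rw [← mul_assoc, h]

theorem WInv_left {X : Type*} {v : G2 → X} (h : WInv v) (x : G2) : WInv (fun g => v (x * g)) := by
  intro g
  show v (x * (g * w)) = _
  rw [← mul_assoc, h]

theorem AA_cast (f : G2 → ℕ) {R : Type*} [CommSemiring R] (g : G2) :
    ((AA f g : ℕ) : R) = AA (fun g => ((f g : ℕ) : R)) g := by
  unfold AA Ap
  push_cast
  rfl

theorem sum_yy {v : G2 → ℂ} (hT : TInv v) (hW : WInv v) (lam : ℂ)
    (hv : ∀ g, AA v g = lam * v g) (k : ℕ) (x : G2) :
    ∑ g, v (x * g) * ((yy k g : ℕ) : ℂ) = lam ^ k * (32 * v x) := by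
  induction k generalizing x with
  | zero =>
    rw [sum_kk (TInv_left hT x) (WInv_left hW x)]
    simp
  | succ k ih =>
    have h1 : ∀ g, ((yy (k + 1) g : ℕ) : ℂ) = AA (fun g => ((yy k g : ℕ) : ℂ)) g :=
      fun g => AA_cast (yy k) g
    have h2 : WInv (fun g => ((yy k g : ℕ) : ℂ)) := by
      intro g
      show ((yy k (g * w) : ℕ) : ℂ) = _
      rw [yy_WInv]
    simp only [h1]
    rw [← AA_adj (WInv_left hW x) h2]
    simp only [AA_left, hv]
    simp only [mul_assoc, ← Finset.mul_sum]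
    rw [ih]
    ring

theorem yy_inner (i j : ℕ) : ∑ g, yy i g * yy j g = 32 * yy (i + j) 1 := by
  induction i generalizing j with
  | zero =>
    have := sum_kk (yy_TInv j) (yy_WInv j)
    simp only [Nat.cast_id] at this
    rw [zero_add, ← this]
    exact Finset.sum_congr rfl fun g _ => mul_comm _ _
  | succ i ih =>
    have h := AA_adj (yy_WInv i) (yy_WInv j)
    calc ∑ g, yy (i + 1) g * yy j g = ∑ g, yy i g * yy (j + 1) g := h
      _ = 32 * yy (i + (j + 1)) 1 := ih (j + 1)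
      _ = 32 * yy (i + 1 + j) 1 := by rw [show i + (j + 1) = i + 1 + j by omega]

/-! ### Bessel -/

theorem bessel {ι α : Type*} [Fintype α] [Fintype ι] [DecidableEq ι] (G : ι → α → ℂ) (N : ℝ)
    (hN : 0 < N)
    (horth : ∀ b b', ∑ g, (starRingEnd ℂ) (G b g) * G b' g = if b = b' then (N : ℂ) else 0)
    (φ : α → ℂ) :
    ∑ b, ‖∑ g, (starRingEnd ℂ) (G b g) * φ g‖ ^ 2 ≤ N * ∑ g, ‖φ g‖ ^ 2 := by
  have hs : (0 : ℝ) < Real.sqrt N := Real.sqrt_pos.2 hN
  have hsq : Real.sqrt N * Real.sqrt N = N := Real.mul_self_sqrt hN.le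
  let v : ι → EuclideanSpace ℂ α := fun b => ((Real.sqrt N)⁻¹ : ℂ) • WithLp.toLp 2 (G b)
  have hinner : ∀ (b : ι) (x : α → ℂ), inner ℂ (v b) (WithLp.toLp 2 x) =
      ((Real.sqrt N)⁻¹ : ℂ) * ∑ g, (starRingEnd ℂ) (G b g) * x g := by
    intro b x
    show inner ℂ (((Real.sqrt N)⁻¹ : ℂ) • WithLp.toLp 2 (G b)) (WithLp.toLp 2 x) = _
    rw [inner_smul_left, PiLp.inner_apply]
    congr 1
    · rw [map_inv₀, Complex.conj_ofReal]
    · refine Finset.sum_congr rfl fun g _ => ?_
      rw [RCLike.inner_apply, mul_comm]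
  have hv : Orthonormal ℂ v := by
    rw [orthonormal_iff_ite]
    intro i j
    show inner ℂ (v i) (((Real.sqrt N)⁻¹ : ℂ) • WithLp.toLp 2 (G j)) = _
    rw [inner_smul_right, hinner, horth]
    split_ifs with h
    · rw [← Complex.ofReal_inv, ← Complex.ofReal_mul, ← Complex.ofReal_mul, ← Complex.ofReal_one]
      congr 1
      field_simp
      nlinarith [hsq]
    · simp
  have h := hv.sum_inner_products_le (WithLp.toLp 2 φ) (s := Finset.univ)
  rw [EuclideanSpace.norm_sq_eq] at h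
  simp only [hinner] at h
  have h2 : ∀ b, ‖((Real.sqrt N)⁻¹ : ℂ) * ∑ g, (starRingEnd ℂ) (G b g) * φ g‖ ^ 2 =
      N⁻¹ * ‖∑ g, (starRingEnd ℂ) (G b g) * φ g‖ ^ 2 := by
    intro b
    rw [norm_mul, mul_pow]
    congr 1
    rw [norm_inv, Complex.norm_real, Real.norm_of_nonneg hs.le, inv_pow, sq, hsq]
  simp only [h2, ← Finset.mul_sum] at h
  rw [inv_mul_le_iff₀ hN] at h
  exact h

/-! ### Fourier components -/

/-- The standard character. -/
def psi : AddChar (ZMod 97) ℂ := ZMod.stdAddChar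

theorem psi_norm (x : ZMod 97) : (starRingEnd ℂ) (psi x) * psi x = 1 := by
  rw [mul_comm, Complex.mul_conj]
  have : ‖psi x‖ = 1 := by
    unfold psi
    rw [ZMod.stdAddChar_apply]
    exact Circle.norm_coe _
  rw [Complex.normSq_eq_norm_sq, this]
  simp

theorem psi_conj (x : ZMod 97) : (starRingEnd ℂ) (psi x) = psi (-x) := by
  have h1 := psi_norm x
  have h2 : psi (-x) * psi x = 1 := by
    rw [← AddChar.map_add_eq_mul, neg_add_cancel, AddChar.map_zero_eq_one]
  have h3 : psi x ≠ 0 := by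
    intro h; rw [h, mul_zero] at h2; exact zero_ne_one h2
  exact mul_right_cancel₀ h3 (h1.trans h2.symm)

theorem psi_ne_one {x : ZMod 97} (hx : x ≠ 0) : psi x ≠ 1 := by
  intro h
  apply hx
  apply ZMod.injective_stdAddChar
  rw [AddChar.map_zero_eq_one]
  exact h

theorem psi_sum (x : ZMod 97) : ∑ c : ZMod 97, psi (c * x) = if x = 0 then 97 else 0 := by
  have h := AddChar.sum_mulShift (ψ := psi) x (ZMod.isPrimitive_stdAddChar 97)
  rw [h]
  split_ifs <;> simp [ZMod.card]

/-- The Fourier component of a function. -/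
def FF (v : G2 → ℂ) (c : ZMod 97) (g : G2) : ℂ := ∑ s : ZMod 97, psi (-(s * c)) * v (un s * g)

theorem FF_TInv {v : G2 → ℂ} (h : TInv v) (c : ZMod 97) : TInv (FF v c) := by
  intro g
  unfold FF
  refine Finset.sum_congr rfl fun s _ => ?_
  rw [← mul_assoc, h]

theorem FF_WInv {v : G2 → ℂ} (h : WInv v) (c : ZMod 97) : WInv (FF v c) := by
  intro g
  unfold FF
  refine Finset.sum_congr rfl fun s _ => ?_
  rw [← mul_assoc, h]

theorem Ap_FF (v : G2 → ℂ) (c : ZMod 97) (g : G2) : Ap (FF v c) g =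
    ∑ s : ZMod 97, psi (-(s * c)) * Ap v (un s * g) := by
  unfold Ap FF
  rw [Finset.sum_comm]
  refine Finset.sum_congr rfl fun s _ => ?_
  rw [Finset.mul_sum]
  refine Finset.sum_congr rfl fun a _ => ?_
  rw [mul_assoc]

theorem AA_FF {v : G2 → ℂ} {lam : ℂ} (hv : ∀ g, AA v g = lam * v g) (c : ZMod 97) (g : G2) :
    AA (FF v c) g = lam * FF v c g := by
  have h : AA (FF v c) g = ∑ s : ZMod 97, psi (-(s * c)) * AA v (un s * g) := by
    unfold AA
    rw [Ap_FF, Ap_FF, ← Finset.sum_add_distrib]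
    refine Finset.sum_congr rfl fun s _ => ?_
    rw [mul_add, mul_assoc]
  rw [h]
  unfold FF
  rw [Finset.mul_sum]
  refine Finset.sum_congr rfl fun s _ => ?_
  rw [hv]
  ring

theorem FF_un (v : G2 → ℂ) (c t : ZMod 97) (g : G2) :
    FF v c (un t * g) = psi (t * c) * FF v c g := by
  unfold FF
  rw [Finset.mul_sum, ← Equiv.sum_comp (Equiv.addRight (-t))]
  refine Finset.sum_congr rfl fun s _ => ?_
  simp only [Equiv.coe_addRight]
  rw [← mul_assoc (un _), ← un_add, neg_add_cancel_right, ← mul_assoc,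
    ← AddChar.map_add_eq_mul]
  congr 2
  ring

theorem FF_inv (v : G2 → ℂ) (t : ZMod 97) (g : G2) :
    ∑ c, psi (t * c) * FF v c g = 97 * v (un t * g) := by
  unfold FF
  simp only [Finset.mul_sum]
  rw [Finset.sum_comm]
  have h : ∀ s : ZMod 97, ∑ c, psi (t * c) * (psi (-(s * c)) * v (un s * g)) =
      (if t - s = 0 then 97 else 0) * v (un s * g) := by
    intro s
    rw [← psi_sum, Finset.sum_mul]
    refine Finset.sum_congr rfl fun c _ => ?_
    rw [← mul_assoc, ← AddChar.map_add_eq_mul]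
    congr 2
    ring
  rw [Finset.sum_congr rfl fun s _ => h s, Finset.sum_eq_single t]
  · simp
  · intro s _ hs
    rw [if_neg (sub_ne_zero.2 (Ne.symm hs)), zero_mul]
  · intro h; exact absurd (Finset.mem_univ _) h

theorem exists_FF_ne {v : G2 → ℂ} (h : ¬ ∀ s g, v (un s * g) = v g) :
    ∃ c : ZMod 97, c ≠ 0 ∧ ∃ g, FF v c g ≠ 0 := by
  by_contra hcon
  push Not at hcon
  apply h
  intro s g
  have h1 : ∀ t, (97 : ℂ) * v (un t * g) = FF v 0 g := by
    intro t
    rw [← FF_inv, Finset.sum_eq_single 0]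
    · rw [mul_zero, AddChar.map_zero_eq_one, one_mul]
    · intro c _ hc
      rw [hcon c hc g, mul_zero]
    · intro h; exact absurd (Finset.mem_univ _) h
  have h2 := (h1 s).trans (h1 0).symm
  rw [un_zero, one_mul] at h2
  exact mul_left_cancel₀ (by norm_num) h2

theorem tb_un (b : ZMod 97) (hb : b ≠ 0) (s : ZMod 97) :
    tb b hb * un s = un (b ^ 2 * s) * tb b hb := by
  ext
  · simp [tb]
  · simp only [tb, mul_b, un_a, un_b, un_c, un_d]
    field_simp
    ring
  · simp [tb]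
  · simp [tb]

theorem const_of_inv {v : G2 → ℂ} (h1 : ∀ s g, v (un s * g) = v g)
    (h2 : ∀ s g, v (w * (un s * g)) = v (w * g)) (g : G2) : v g = v 1 := by
  have h3 : ∀ s g, v (lo s * g) = v g := by
    intro s g
    have h4 := h2 (-s) (w⁻¹ * g)
    rw [mul_inv_cancel_left] at h4
    rw [← h4]
    congr 1
    rw [← mul_assoc, ← mul_assoc]
    congr 1
    ext <;> simp
  have h5 : ∀ g : G2, g.c ≠ 0 → v g = v 1 := by
    intro g hg
    have e : g = un ((g.a - 1) * g.c⁻¹) * (lo g.c * (un ((g.d - 1) * g.c⁻¹) * 1)) := by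
      have hh := g.h
      ext
      · simp only [mul_a, mul_b, mul_c, mul_d, un_a, un_b, un_c, un_d, lo_a, lo_b, lo_c, lo_d,
          one_a, one_b, one_c, one_d]
        field_simp
        ring
      · simp only [mul_a, mul_b, mul_c, mul_d, un_a, un_b, un_c, un_d, lo_a, lo_b, lo_c, lo_d,
          one_a, one_b, one_c, one_d]
        field_simp
        linear_combination -hh
      · simp only [mul_a, mul_b, mul_c, mul_d, un_a, un_b, un_c, un_d, lo_a, lo_b, lo_c, lo_d,
          one_a, one_b, one_c, one_d]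
        ring
      · simp only [mul_a, mul_b, mul_c, mul_d, un_a, un_b, un_c, un_d, lo_a, lo_b, lo_c, lo_d,
          one_a, one_b, one_c, one_d]
        field_simp
        ring
    rw [e, h1, h3, h1]
  by_cases hg : g.c = 0
  · rw [← h3 1 g]
    apply h5
    simp only [mul_c, lo_c, lo_d, hg]
    have hh := g.h
    rw [hg, mul_zero, sub_zero] at hh
    intro h
    have : g.a = 0 := by simpa using h
    rw [this, zero_mul] at hh
    exact zero_ne_one hh
  · exact h5 g hg

/-! ### The trace bound -/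

/-- The test vector. -/
def phi (c : ℕ → ℝ) (D : ℕ) (g : G2) : ℝ := ∑ k ∈ Finset.range D, c k * yy k g

theorem phi_sq (c : ℕ → ℝ) (D : ℕ) : ∑ g, phi c D g ^ 2 =
    32 * ∑ k ∈ Finset.range D, ∑ l ∈ Finset.range D, c k * c l * yy (k + l) 1 := by
  have h1 : ∀ k l, ∑ g, (yy k g : ℝ) * yy l g = 32 * yy (k + l) 1 := by
    intro k l
    have := yy_inner k l
    exact_mod_cast this
  unfold phi
  simp only [sq, Finset.sum_mul_sum]
  rw [Finset.sum_comm, Finset.mul_sum]
  refine Finset.sum_congr rfl fun k _ => ?_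
  rw [Finset.sum_comm, Finset.mul_sum]
  refine Finset.sum_congr rfl fun l _ => ?_
  have h2 : ∀ g, c k * (yy k g : ℝ) * (c l * yy l g) = c k * c l * ((yy k g : ℝ) * yy l g) := by
    intro g; ring
  rw [Finset.sum_congr rfl fun g _ => h2 g, ← Finset.mul_sum, h1]
  ring

theorem pair_phi {v : G2 → ℂ} (hT : TInv v) (hW : WInv v) (lam : ℝ)
    (hv : ∀ g, AA v g = lam * v g) (c : ℕ → ℝ) (D : ℕ) (x : G2) :
    ∑ g, v (x * g) * (phi c D g : ℂ) =
      ((∑ k ∈ Finset.range D, c k * lam ^ k : ℝ) : ℂ) * (32 * v x) := by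
  unfold phi
  push_cast
  simp only [Finset.mul_sum]
  rw [Finset.sum_comm, Finset.sum_mul]
  refine Finset.sum_congr rfl fun k _ => ?_
  have h2 : ∀ g, v (x * g) * ((c k : ℂ) * ((yy k g : ℕ) : ℂ)) =
      (c k : ℂ) * (v (x * g) * ((yy k g : ℕ) : ℂ)) := by
    intro g; ring
  rw [Finset.sum_congr rfl fun g _ => h2 g, ← Finset.mul_sum, sum_yy hT hW lam hv]
  ring

theorem sq_ne : ∀ i j : Fin 48, i ≠ j →
    ((((i : ℕ) + 1 : ℕ) : ZMod 97)) ^ 2 ≠ ((((j : ℕ) + 1 : ℕ) : ZMod 97)) ^ 2 := by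
  decide +kernel

theorem bb_ne : ∀ i : Fin 48, ((((i : ℕ) + 1 : ℕ) : ZMod 97)) ≠ 0 := by
  decide +kernel

/-- The bound for an equivariant eigenfunction. -/
theorem trace_core {u : G2 → ℂ} (hT : TInv u) (hW : WInv u) (lam : ℝ)
    (hu : ∀ g, AA u g = lam * u g) (hne : ∃ g, u g ≠ 0) (c0 : ZMod 97) (hc0 : c0 ≠ 0)
    (hun : ∀ t g, u (un t * g) = psi (t * c0) * u g) (c : ℕ → ℝ) (D : ℕ) :
    1536 * (∑ k ∈ Finset.range D, c k * lam ^ k) ^ 2 ≤ Fintype.card G2 *
      ∑ k ∈ Finset.range D, ∑ l ∈ Finset.range D, c k * c l * yy (k + l) 1 := by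
  set R : ℝ := ∑ k ∈ Finset.range D, c k * lam ^ k with hR
  set S : ℝ := ∑ k ∈ Finset.range D, ∑ l ∈ Finset.range D, c k * c l * yy (k + l) 1 with hS
  let b : Fin 48 → ZMod 97 := fun i => (((i : ℕ) + 1 : ℕ) : ZMod 97)
  let G : Fin 48 → G2 → ℂ := fun i g => u (tb (b i) (bb_ne i) * g)
  set N : ℝ := ∑ g, ‖u g‖ ^ 2 with hN
  have hNpos : 0 < N := by
    obtain ⟨g, hg⟩ := hne
    refine Finset.sum_pos' (fun g _ => by positivity) ⟨g, Finset.mem_univ _, ?_⟩
    have := norm_pos_iff.2 hg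
    positivity
  have horth : ∀ i j, ∑ g, (starRingEnd ℂ) (G i g) * G j g = if i = j then (N : ℂ) else 0 := by
    intro i j
    by_cases hij : i = j
    · subst hij
      rw [if_pos rfl]
      show ∑ g, (starRingEnd ℂ) (u (tb (b i) (bb_ne i) * g)) * u (tb (b i) (bb_ne i) * g) = _
      rw [sum_mul_left (fun g => (starRingEnd ℂ) (u g) * u g), hN]
      push_cast
      refine Finset.sum_congr rfl fun g _ => ?_
      rw [mul_comm, Complex.mul_conj, Complex.normSq_eq_norm_sq]
      push_cast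
      rfl
    · rw [if_neg hij]
      set I := ∑ g, (starRingEnd ℂ) (G i g) * G j g with hI
      have hGi : ∀ (i : Fin 48) g, G i (un 1 * g) = psi (b i ^ 2 * c0) * G i g := by
        intro i g
        show u (tb (b i) (bb_ne i) * (un 1 * g)) = psi (b i ^ 2 * c0) * u (tb (b i) (bb_ne i) * g)
        rw [← mul_assoc, tb_un, mul_assoc, hun, mul_one]
      have h1 : I = psi (-(b i ^ 2 * c0)) * psi (b j ^ 2 * c0) * I := by
        conv_lhs => rw [hI, ← sum_mul_left _ (un 1)]
        rw [hI, Finset.mul_sum]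
        refine Finset.sum_congr rfl fun g _ => ?_
        rw [hGi, hGi, map_mul, psi_conj]
        ring
      rw [← AddChar.map_add_eq_mul] at h1
      have h2 : psi (-(b i ^ 2 * c0) + b j ^ 2 * c0) ≠ 1 := by
        apply psi_ne_one
        intro h
        have h3 : (b j ^ 2 - b i ^ 2) * c0 = 0 := by linear_combination h
        rcases mul_eq_zero.1 h3 with h4 | h4
        · exact sq_ne j i (Ne.symm hij) (sub_eq_zero.1 h4)
        · exact hc0 h4
      have h3 : (psi (-(b i ^ 2 * c0) + b j ^ 2 * c0) - 1) * I = 0 := by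
        linear_combination -h1
      rcases mul_eq_zero.1 h3 with h4 | h4
      · exact absurd (sub_eq_zero.1 h4) h2
      · exact h4
  have hbes : ∀ x : G2, 1024 * R ^ 2 * ∑ i, ‖G i x‖ ^ 2 ≤ N * (32 * S) := by
    intro x
    have h := bessel G N hNpos horth (fun g => (phi c D (x⁻¹ * g) : ℂ))
    have h1 : ∑ g, ‖((phi c D (x⁻¹ * g) : ℝ) : ℂ)‖ ^ 2 = 32 * S := by
      rw [sum_mul_left (fun g => ‖((phi c D g : ℝ) : ℂ)‖ ^ 2) x⁻¹, hS, ← phi_sq]
      refine Finset.sum_congr rfl fun g _ => ?_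
      rw [Complex.norm_real, Real.norm_eq_abs, sq_abs]
    rw [h1] at h
    refine le_trans (le_of_eq ?_) h
    rw [Finset.mul_sum]
    refine Finset.sum_congr rfl fun i _ => ?_
    have h2 : ∑ g, (starRingEnd ℂ) (G i g) * ((phi c D (x⁻¹ * g) : ℝ) : ℂ) =
        (R : ℂ) * (32 * (starRingEnd ℂ) (G i x)) := by
      rw [← sum_mul_left _ x]
      simp only [inv_mul_cancel_left]
      have hT' : TInv (fun g => (starRingEnd ℂ) (G i g)) := by
        intro g
        show (starRingEnd ℂ) (u (tb (b i) (bb_ne i) * (g * T))) = (starRingEnd ℂ) (u (tb (b i) (bb_ne i) * g))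
        rw [← mul_assoc, hT]
      have hW' : WInv (fun g => (starRingEnd ℂ) (G i g)) := by
        intro g
        show (starRingEnd ℂ) (u (tb (b i) (bb_ne i) * (g * w))) = (starRingEnd ℂ) (u (tb (b i) (bb_ne i) * g))
        rw [← mul_assoc, hW]
      have hv' : ∀ g, AA (fun g => (starRingEnd ℂ) (G i g)) g = lam * (starRingEnd ℂ) (G i g) := by
        intro g
        have h3 : AA (fun g => (starRingEnd ℂ) (G i g)) g = (starRingEnd ℂ) (AA (G i) g) := by
          unfold AA Ap
          simp only [map_add, map_sum]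
        have h4 : AA (G i) g = lam * G i g := by
          show AA (fun g => u (tb (b i) (bb_ne i) * g)) g = _
          rw [AA_left, hu]
        rw [h3, h4, map_mul, Complex.conj_ofReal]
      exact pair_phi hT' hW' lam hv' c D x
    rw [h2, norm_mul, norm_mul, Complex.norm_real, RCLike.norm_conj, mul_pow, mul_pow,
      Real.norm_eq_abs, sq_abs]
    norm_num
    ring
  have hsum : ∑ x : G2, (1024 * R ^ 2 * ∑ i, ‖G i x‖ ^ 2) ≤ ∑ x : G2, N * (32 * S) :=
    Finset.sum_le_sum fun x _ => hbes x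
  rw [Finset.sum_const, Finset.card_univ, nsmul_eq_mul, ← Finset.mul_sum, Finset.sum_comm] at hsum
  have hNi : ∀ i, ∑ x, ‖G i x‖ ^ 2 = N := by
    intro i
    exact sum_mul_left (fun g => ‖u g‖ ^ 2) _
  rw [Finset.sum_congr rfl fun i _ => hNi i, Finset.sum_const, Finset.card_univ,
    Fintype.card_fin, nsmul_eq_mul] at hsum
  have h5 : (1536 * R ^ 2) * (32 * N) ≤ (Fintype.card G2 * S) * (32 * N) := by
    push_cast at hsum
    nlinarith [hsum]
  exact le_of_mul_le_mul_right h5 (by positivity)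

theorem trace_bound {v : G2 → ℂ} (hT : TInv v) (hW : WInv v) (lam : ℝ)
    (hv : ∀ g, AA v g = lam * v g) (hne : ∃ g, v g ≠ 0) (hlam : lam < 32) (c : ℕ → ℝ) (D : ℕ) :
    1536 * (∑ k ∈ Finset.range D, c k * lam ^ k) ^ 2 ≤ 912673 *
      ∑ k ∈ Finset.range D, ∑ l ∈ Finset.range D, c k * c l * yy (k + l) 1 := by
  have hS : 0 ≤ ∑ k ∈ Finset.range D, ∑ l ∈ Finset.range D, c k * c l * (yy (k + l) 1 : ℝ) := by
    have h := phi_sq c D
    have h2 : 0 ≤ ∑ g, phi c D g ^ 2 := Finset.sum_nonneg fun g _ => sq_nonneg _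
    linarith
  have hcard : ((Fintype.card G2 : ℕ) : ℝ) ≤ 912673 := by exact_mod_cast card_le
  -- the core for functions not invariant under `un`
  have key : ∀ v : G2 → ℂ, TInv v → WInv v → (∀ g, AA v g = lam * v g) →
      (¬ ∀ s g, v (un s * g) = v g) →
      1536 * (∑ k ∈ Finset.range D, c k * lam ^ k) ^ 2 ≤ 912673 *
      ∑ k ∈ Finset.range D, ∑ l ∈ Finset.range D, c k * c l * yy (k + l) 1 := by
    intro v hT hW hv hn
    obtain ⟨c0, hc0, g0, hg0⟩ := exists_FF_ne hn
    have h := trace_core (FF_TInv hT c0) (FF_WInv hW c0) lam (AA_FF hv c0) ⟨g0, hg0⟩ c0 hc0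
      (FF_un v c0) c D
    exact h.trans (mul_le_mul_of_nonneg_right hcard hS)
  by_cases h1 : ∀ s g, v (un s * g) = v g
  · by_cases h2 : ∀ s g, v (w * (un s * g)) = v (w * g)
    · exfalso
      have hc := const_of_inv h1 h2
      obtain ⟨g, hg⟩ := hne
      have hv1 := hv g
      have h3 : AA v g = 32 * v 1 := by
        unfold AA Ap
        simp only [hc (_ * un _), Finset.sum_const, card_Hs]
        simp
        ring
      rw [h3, hc g] at hv1
      rw [hc g] at hg
      have h4 : (32 : ℂ) = lam := mul_right_cancel₀ hg hv1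
      have h5 : (32 : ℝ) = lam := by exact_mod_cast h4
      linarith
    · exact key (fun g => v (w * g)) (TInv_left hT w) (WInv_left hW w)
        (fun g => by rw [AA_left, hv]) h2
  · exact key v hT hW hv h1

end Pool.Agent.Folk588
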